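import Pool.Agent.X37.RD.Rec

/-!
# A residue class for Rankin's covering with templates, for integer shifts of both signs
-/

set_option autoImplicit false

namespace Pool.Agent.X37.FS

open Finset Filter
open Pool.Agent.X37.RD

/-- the scale, with a free constant -/
lemma scale' (D : ℝ) (hD : 1 ≤ D) (c : ℝ) (hc : 0 < c) : ∀ᶠ L : ℝ in atTop, ∀ y : ℕ, L / (2 * D) ≤ y → (y : ℝ) ≤ L / D →
    c / (8 * D) * (L * Real.log L * Real.log (Real.log (Real.log L)) / (Real.log (Real.log L)) ^ 2) ≤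
      c * y * Real.log y * Real.log (Real.log (Real.log y)) / (Real.log (Real.log y)) ^ 2 := by
  have t1 := Real.tendsto_log_atTop
  have t2 := Real.tendsto_log_atTop.comp Real.tendsto_log_atTop
  have t3 := Real.tendsto_log_atTop.comp t2
  filter_upwards [eventually_gt_atTop 0, t1.eventually_ge_atTop (2 * Real.log (2 * D) + 10), t2.eventually_ge_atTop 2,
    t3.eventually_ge_atTop 2] with L hL h3 h4 h5 y h1 h2
  simp only [Function.comp] at h4 h5
  obtain ⟨u, hu⟩ : ∃ u, u = Real.log L := ⟨_, rfl⟩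
  rw [← hu] at h3 h4 h5 ⊢
  obtain ⟨v, hv⟩ : ∃ v, v = Real.log u := ⟨_, rfl⟩
  rw [← hv] at h4 h5 ⊢
  obtain ⟨w, hw⟩ : ∃ w, w = Real.log v := ⟨_, rfl⟩
  rw [← hw] at h5 ⊢
  have hD0 : 0 < D := by linarith
  have hlD : 0 ≤ Real.log (2 * D) := Real.log_nonneg (by linarith)
  have hy0 : (0 : ℝ) < y := lt_of_lt_of_le (by positivity) h1
  have l2 : Real.log 2 ≤ 1 := by
    have := Real.log_le_sub_one_of_pos (by norm_num : (0 : ℝ) < 2)
    linarith
  have a1 : u / 2 ≤ Real.log y := by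
    have h6 : Real.log (L / (2 * D)) ≤ Real.log y := Real.log_le_log (by positivity) h1
    rw [Real.log_div hL.ne' (by positivity), ← hu] at h6
    linarith
  have a2 : Real.log y ≤ u := by
    rw [hu]
    apply Real.log_le_log hy0
    refine h2.trans ?_
    rw [div_le_iff₀ hD0]
    nlinarith
  have b1 : v / 2 ≤ Real.log (Real.log y) := by
    have h6 : Real.log (u / 2) ≤ Real.log (Real.log y) := Real.log_le_log (by linarith) a1
    rw [Real.log_div (by linarith) (by norm_num), ← hv] at h6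
    linarith
  have b2 : Real.log (Real.log y) ≤ v := by
    rw [hv]
    apply Real.log_le_log (by linarith) a2
  have c1 : w / 2 ≤ Real.log (Real.log (Real.log y)) := by
    have h6 : Real.log (v / 2) ≤ Real.log (Real.log (Real.log y)) := Real.log_le_log (by linarith) b1
    rw [Real.log_div (by linarith) (by norm_num), ← hw] at h6
    linarith
  have b3 : 0 < Real.log (Real.log y) := by linarith
  have d1 : 0 ≤ Real.log y := by linarith
  have d2 : 0 ≤ Real.log (Real.log (Real.log y)) := by linarith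
  have w0 : 0 ≤ w / 2 := by linarith
  have u0 : 0 ≤ u / 2 := by linarith
  have L0 : 0 ≤ L / (2 * D) := by positivity
  calc c / (8 * D) * (L * u * w / v ^ 2) = c * (L / (2 * D)) * (u / 2) * (w / 2) / v ^ 2 := by field_simp; ring
    _ ≤ c * y * Real.log y * Real.log (Real.log (Real.log y)) / (Real.log (Real.log y)) ^ 2 := by
        gcongr

/-- **covering class** -/
theorem cover_class (k : ℕ) (δ : ℝ) (hδ : 0 < δ) : ∃ c : ℝ, 0 < c ∧ ∀ᶠ n : ℕ in atTop, 2 * (c * RR n) ≤ n ∧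
    ∀ H : Finset ℤ, H.card ≤ k → 0 ∈ H → (∀ h ∈ H, (|h| : ℝ) ≤ c * RR n) →
    (∀ l : ℕ, l.Prime → ∃ a : ℤ, ∀ h ∈ H, ¬ (l : ℤ) ∣ a + h) →
    ∃ y : ℕ, (2 * y : ℝ) ≤ Real.log n ∧ (primorial (2 * y) : ℝ) ≤ (n : ℝ) ^ δ ∧ ∃ a : ℤ,
      (∀ l : ℕ, l.Prime → l ≤ 2 * y → ∀ h ∈ H, ¬ (l : ℤ) ∣ a + h) ∧
      ∀ t : ℤ, (|t| : ℝ) ≤ c * RR n → t ∉ H → ∃ l : ℕ, l.Prime ∧ l ≤ 2 * y ∧ (l : ℤ) ∣ a + t := by
  classical
  obtain ⟨c₁, hc₁, y₀, hran⟩ := rankinK k
  obtain ⟨D, hD⟩ : ∃ D : ℝ, D = 28 + 3 / δ := ⟨_, rfl⟩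
  have hD28 : 28 ≤ D := by rw [hD]; have : 0 < 3 / δ := by positivity
                           linarith
  have hDδ : 3 / D ≤ δ := by
    rw [div_le_iff₀ (by linarith), hD]
    have : δ * (3 / δ) = 3 := by field_simp
    nlinarith
  obtain ⟨c, hc⟩ : ∃ c : ℝ, c = c₁ / (8 * D) / 2 := ⟨_, rfl⟩
  have hc0 : 0 < c := by rw [hc]; positivity
  have t1 : Tendsto (fun N : ℕ => Real.log N) atTop atTop := Real.tendsto_log_atTop.comp tendsto_natCast_atTop_atTop
  refine ⟨c, hc0, ?_⟩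
  filter_upwards [recfacts 1 (D * (y₀ + 2)) (2 * c) one_pos 1, t1.eventually (scale' D (by linarith) c₁ hc₁),
    eventually_ge_atTop 5] with n hfacts hscale hn5
  obtain ⟨g1, g2, g3, g4, g5, g6, g7, g8⟩ := hfacts
  have hn0 : (0 : ℝ) < n := by exact_mod_cast (by omega : 0 < n)
  obtain ⟨L, hL⟩ : ∃ L, L = Real.log n := ⟨_, rfl⟩
  rw [← hL] at g1 g2 g3 g4 g5 g8 hscale
  have hRR : RR n = L * Real.log L * Real.log (Real.log (Real.log L)) / (Real.log (Real.log L)) ^ 2 := by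
    unfold RR
    rw [← hL]
  have hD0 : 0 < D := by linarith
  have hy₀0 : (0 : ℝ) ≤ y₀ := Nat.cast_nonneg _
  have hLpos : 0 < L := lt_of_lt_of_le (by positivity) g1
  have hRR0 : 0 ≤ RR n := by
    rw [hRR]
    have h1 : 0 ≤ Real.log (Real.log (Real.log L)) := by linarith
    have h2 : 0 ≤ Real.log L := by linarith
    positivity
  have hRRn : 2 * (c * RR n) ≤ n := by
    refine le_trans ?_ g5
    rw [← mul_assoc]
    apply mul_le_mul_of_nonneg_left _ (by positivity)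
    rw [hRR, div_le_iff₀ (by positivity)]
    have e1 : Real.log L ≤ L := Real.log_le_self hLpos.le
    have e2 : Real.log (Real.log (Real.log L)) ≤ Real.log (Real.log L) := Real.log_le_self (by linarith)
    have e3 : Real.log (Real.log L) ≤ (Real.log (Real.log L)) ^ 2 := by nlinarith
    have e4 : 0 ≤ Real.log (Real.log (Real.log L)) := by linarith
    calc L * Real.log L * Real.log (Real.log (Real.log L)) ≤ L * L * (Real.log (Real.log L)) ^ 2 := by
          gcongr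
          linarith
      _ = L ^ 2 * (Real.log (Real.log L)) ^ 2 := by ring
  refine ⟨hRRn, fun H hHk h0 hHle hadm => ?_⟩
  -- the parameter `y`
  obtain ⟨y, hy⟩ : ∃ y : ℕ, y = ⌊L / D⌋₊ := ⟨_, rfl⟩
  have hy1 : (y : ℝ) ≤ L / D := by rw [hy]; exact Nat.floor_le (by positivity)
  have hy2 : L / D < y + 1 := by rw [hy]; exact Nat.lt_floor_add_one _
  have hLD : (y₀ : ℝ) + 2 ≤ L / D := by rw [le_div_iff₀ hD0]; linarith
  have hy3 : L / (2 * D) ≤ y := by
    have e : L / (2 * D) = L / D / 2 := by field_simp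
    rw [e]
    linarith
  have hyy : y₀ ≤ y := by
    have : (y₀ : ℝ) < y + 1 := by linarith
    have h2 : y₀ < y + 1 := by exact_mod_cast this
    omega
  -- the templates
  obtain ⟨R, hR⟩ : ∃ R : ℕ, R = ⌊c * RR n⌋₊ := ⟨_, rfl⟩
  have hRle : ∀ t : ℤ, (|t| : ℝ) ≤ c * RR n → 0 ≤ R + t ∧ R + t ≤ 2 * R := by
    intro t ht
    have h1 : t.natAbs ≤ R := by
      rw [hR, Nat.le_floor_iff (by positivity)]
      refine le_trans (le_of_eq ?_) ht
      rw [Nat.cast_natAbs, Int.cast_abs]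
    omega
  have hex : ∃ σ : Fin k → ℤ, (∀ j, σ j ∈ H) ∧ ∀ h ∈ H, ∃ j, σ j = h := by
    refine ⟨fun j => if h : (j : ℕ) < H.card then (H.equivFin.symm ⟨j, h⟩ : ℤ) else 0, ?_, ?_⟩
    · intro j
      by_cases h : (j : ℕ) < H.card
      · simp only [h, dif_pos]
        exact (H.equivFin.symm ⟨j, h⟩).2
      · simp only [h, dif_neg, not_false_eq_true]
        exact h0
    · intro h hh
      have h1 := (H.equivFin ⟨h, hh⟩).2
      refine ⟨⟨(H.equivFin ⟨h, hh⟩ : ℕ), lt_of_lt_of_le h1 hHk⟩, ?_⟩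
      simp only [h1, dif_pos, Fin.eta, Equiv.symm_apply_apply]
  obtain ⟨σ, hσH, hσ⟩ := hex
  have hτcast : ∀ j, (((R + σ j).toNat : ℕ) : ℤ) = R + σ j := fun j =>
    Int.toNat_of_nonneg (hRle _ (hHle _ (hσH j))).1
  have hadmτ : ∀ p : ℕ, p.Prime → ∃ a : ℕ, ∀ j, ¬ p ∣ a + (R + σ j).toNat := by
    intro p hp
    have hp0 : (0 : ℤ) < p := by exact_mod_cast hp.pos
    obtain ⟨a, ha⟩ := hadm p hp
    refine ⟨((a - R) % p).toNat, fun j hd => ha _ (hσH j) ?_⟩
    have h1 : ((((a - R) % p).toNat : ℕ) : ℤ) = (a - R) % p := Int.toNat_of_nonneg (Int.emod_nonneg _ hp0.ne')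
    have h2 : (p : ℤ) ∣ (((a - R) % p).toNat : ℤ) + ((R + σ j).toNat : ℤ) := by exact_mod_cast hd
    rw [h1, hτcast] at h2
    have h3 : (p : ℤ) ∣ (a - R) - (a - R) % p := Int.dvd_self_sub_emod
    have := dvd_add h2 h3
    have e : (a - R) % p + (R + σ j) + ((a - R) - (a - R) % p) = a + σ j := by ring
    rwa [e] at this
  have hHscale : ((2 * R : ℕ) : ℝ) ≤ c₁ * y * Real.log y * Real.log (Real.log (Real.log y)) / (Real.log (Real.log y)) ^ 2 := by
    refine le_trans ?_ (hscale y hy3 hy1)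
    rw [← hRR]
    have h1 : (R : ℝ) ≤ c * RR n := by rw [hR]; exact Nat.floor_le (by positivity)
    push_cast
    calc 2 * (R : ℝ) ≤ 2 * (c * RR n) := by linarith
      _ = c₁ / (8 * D) * RR n := by rw [hc]; ring
  obtain ⟨n₀, -, hcov1, hcov2⟩ := hran y hyy (fun j => (R + σ j).toNat) hadmτ (2 * R) hHscale (by
    intro j
    have h1 := (hRle _ (hHle _ (hσH j))).2
    have h2 := hτcast j
    omega)
  refine ⟨y, ?_, ?_, (n₀ : ℤ) + R, ?_, ?_⟩
  · rw [← hL]
    have h1 : L / D ≤ L / 28 := by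
      apply div_le_div_of_nonneg_left hLpos.le (by norm_num) hD28
    linarith
  · have h1 : (primorial (2 * y) : ℝ) ≤ (4 : ℝ) ^ (2 * y) := by
      exact_mod_cast primorial_le_four_pow (2 * y)
    have h2 : Real.log 4 ≤ 1.4 := by
      have e : (4 : ℝ) = 2 ^ 2 := by norm_num
      rw [e, Real.log_pow]
      have := Real.log_two_lt_d9
      push_cast
      linarith
    refine h1.trans ?_
    rw [← Real.exp_log (show (0 : ℝ) < 4 ^ (2 * y) by positivity), Real.rpow_def_of_pos hn0, ← hL]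
    apply Real.exp_le_exp.2
    rw [Real.log_pow]
    push_cast
    have h4 : 0 ≤ Real.log 4 := Real.log_nonneg (by norm_num)
    have h5 : (0 : ℝ) ≤ y := Nat.cast_nonneg _
    have h6 : 3 * (y : ℝ) ≤ L * δ := by
      calc 3 * (y : ℝ) ≤ 3 * (L / D) := by linarith
        _ = L * (3 / D) := by ring
        _ ≤ L * δ := by gcongr
    nlinarith
  · intro l hl hly h hh hd
    obtain ⟨j, rfl⟩ := hσ h hh
    apply hcov1 l hl hly j
    have h2 : (l : ℤ) ∣ (n₀ : ℤ) + ((R + σ j).toNat : ℤ) := by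
      rw [hτcast]
      have e : (n₀ : ℤ) + (R + σ j) = n₀ + R + σ j := by ring
      rwa [e]
    exact_mod_cast h2
  · intro t ht htH
    obtain ⟨ht1, ht2⟩ := hRle t ht
    have hcast : (((R + t).toNat : ℕ) : ℤ) = R + t := Int.toNat_of_nonneg ht1
    obtain ⟨l, hl, hly, hd⟩ := hcov2 (R + t).toNat (by omega) (by
      intro j hj
      apply htH
      have h1 := hτcast j
      have : t = σ j := by
        have h3 : (((R + t).toNat : ℕ) : ℤ) = ((R + σ j).toNat : ℕ) := by exact_mod_cast hj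
        rw [hcast, h1] at h3
        linarith
      rw [this]
      exact hσH j)
    refine ⟨l, hl, hly, ?_⟩
    have h2 : (l : ℤ) ∣ (n₀ : ℤ) + ((R + t).toNat : ℤ) := by exact_mod_cast hd
    rw [hcast] at h2
    have e : (n₀ : ℤ) + (R + t) = n₀ + R + t := by ring
    rwa [e] at h2

end Pool.Agent.X37.FS
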