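import Pool.Agent.X37.FS.Pat

/-!
# The fundamental lemma on the sphere: asymptotic formula
-/

set_option autoImplicit false
open Finset

namespace Pool.Agent.X37.FS
open Pool.Agent.W65.FS

lemma exists_J (z : ℕ) : ∃ J : ℕ, z ≤ 2 ^ 2 ^ J ∧ 2 ^ 2 ^ J ≤ 2 * (z + 1) ^ 2 := by
  classical
  have hex : ∃ J : ℕ, z ≤ 2 ^ 2 ^ J := by
    refine ⟨z, ?_⟩
    have h1 : z < 2 ^ z := Nat.lt_two_pow_self
    calc z ≤ 2 ^ z := h1.le
      _ ≤ 2 ^ 2 ^ z := Nat.pow_le_pow_right (by norm_num) h1.le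
  refine ⟨Nat.find hex, Nat.find_spec hex, ?_⟩
  rcases Nat.eq_zero_or_pos (Nat.find hex) with h0 | h0
  · rw [h0]
    have : 1 ≤ (z + 1) ^ 2 := Nat.one_le_pow _ _ (by omega)
    simpa using this
  · have h1 := Nat.find_min hex (m := Nat.find hex - 1) (by omega)
    push Not at h1
    have h2 : 2 ^ 2 ^ (Nat.find hex) = (2 ^ 2 ^ (Nat.find hex - 1)) ^ 2 := by
      rw [← pow_mul, ← pow_succ]
      congr 2
      omega
    rw [h2]
    calc (2 ^ 2 ^ (Nat.find hex - 1)) ^ 2 ≤ (z + 1) ^ 2 := Nat.pow_le_pow_left (by omega) 2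
      _ ≤ 2 * (z + 1) ^ 2 := by omega

open Classical in
/-- **asymptotic formula** -/
theorem asym (κ : ℕ) (η : ℝ) (hη : 0 < η) :
    ∃ u : ℝ, 0 < u ∧ ∃ n0 : ℕ, ∀ n : ℕ, Odd n → n0 ≤ n → ∀ f : (Fin 4 → ℤ) → ℤ,
      (∀ (l : ℕ) (X Y : Fin 4 → ℤ), (∀ i, (l : ℤ) ∣ X i - Y i) → (l : ℤ) ∣ f X - f Y) →
      (∀ l : ℕ, l.Prime → l ≠ 2 → (Bl f n l).card ≤ κ * l ^ 2) →
      (∀ l : ℕ, l.Prime → l ≠ 2 → ∃ c ∈ Gl n l, ¬ (l : ℤ) ∣ f c) →
      ∀ z : ℕ, (z : ℝ) ≤ (n : ℝ) ^ u →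
        |((((preps n).filter (fun X => ∀ l ∈ (Icc 3 z).filter Nat.Prime, ¬ (l : ℤ) ∣ f X)).card : ℕ) : ℝ) -
          (preps n).card * ∏ l ∈ (Icc 3 z).filter Nat.Prime, (1 - gg f n l)| ≤
        η * ((preps n).card * ∏ l ∈ (Icc 3 z).filter Nat.Prime, (1 - gg f n l)) := by
  classical
  obtain ⟨C0, hC0, hFL⟩ := Pool.Agent.H20R2.fLem κ
  obtain ⟨C, hC, hdist⟩ := distribution
  obtain ⟨c1, hc1, hlow⟩ := preps_lower (1 / 200) (by norm_num)
  obtain ⟨b0, hb0⟩ := exists_pow_lt_of_lt_one (show 0 < η / 2 by positivity) (show (1 / 2 : ℝ) < 1 by norm_num)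
  obtain ⟨b, hb⟩ : ∃ b : ℕ, b = b0 + C0 := ⟨_, rfl⟩
  have hb2 : (1 / 2 : ℝ) ^ b ≤ η / 2 := by
    refine le_trans (pow_le_pow_of_le_one (by norm_num) (by norm_num) (show b0 ≤ b by omega)) hb0.le
  obtain ⟨z0, hz0⟩ : ∃ z0 : ℕ, z0 = C0 + 2 * κ + 10 := ⟨_, rfl⟩
  obtain ⟨U0, hU0⟩ : ∃ U0 : Finset ℕ, U0 = (Icc 3 z0).filter Nat.Prime := ⟨_, rfl⟩
  obtain ⟨Z, hZ⟩ : ∃ Z : ℕ, Z = ∏ l ∈ U0, l := ⟨_, rfl⟩
  have hU0p : ∀ l ∈ U0, l.Prime ∧ l ≠ 2 ∧ l ≤ z0 := by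
    intro l hl
    rw [hU0, Finset.mem_filter, Finset.mem_Icc] at hl
    exact ⟨hl.2, by omega, hl.1.2⟩
  have hZpos : 0 < Z := by rw [hZ]; exact Finset.prod_pos fun l hl => (hU0p l hl).1.pos
  have hZr : (1 : ℝ) ≤ Z := by exact_mod_cast hZpos
  obtain ⟨E, hE⟩ : ∃ E : ℕ, E = 16 * (C0 * b) + 1 := ⟨_, rfl⟩
  have hE1 : (1 : ℝ) ≤ E := by exact_mod_cast (show 1 ≤ E by omega)
  obtain ⟨u, hu⟩ : ∃ u : ℝ, u = 1 / (400 * (E + κ + 1)) := ⟨_, rfl⟩
  have hu0 : 0 < u := by rw [hu]; positivity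
  have hκ0 : (0 : ℝ) ≤ κ := by positivity
  have hu1 : 2 * u * E ≤ 1 / 200 := by
    rw [hu]
    have e : 2 * (1 / (400 * ((E : ℝ) + κ + 1))) * E = (1 / 200) * (E / (E + κ + 1)) := by field_simp; ring
    rw [e]
    have : (E : ℝ) / (E + κ + 1) ≤ 1 := by rw [div_le_one (by positivity)]; linarith
    linarith
  have hu2 : u * (2 * κ) ≤ 1 / 200 := by
    rw [hu]
    have e : 1 / (400 * ((E : ℝ) + κ + 1)) * (2 * κ) = (1 / 200) * (κ / (E + κ + 1)) := by field_simp; ring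
    rw [e]
    have : (κ : ℝ) / (E + κ + 1) ≤ 1 := by rw [div_le_one (by positivity)]; linarith
    linarith
  obtain ⟨c3, hc3⟩ : ∃ c3 : ℝ, c3 = Real.exp (-(2 * κ)) := ⟨_, rfl⟩
  have hc3pos : 0 < c3 := by rw [hc3]; exact Real.exp_pos _
  obtain ⟨c4, hc4⟩ : ∃ c4 : ℝ, c4 = c1 * (1 / (Z : ℝ) ^ 4) * c3 := ⟨_, rfl⟩
  have hc4pos : 0 < c4 := by rw [hc4]; positivity
  obtain ⟨n2, hn2⟩ := large_rpow ((2 * C * (Z : ℝ) ^ 15 * 8 ^ E) / (η / 2 * c4)) (1 / 100) (by norm_num)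
  refine ⟨u, hu0, n2 + 1, ?_⟩
  intro n hno hnbig f hcong hbad hloc z hzn
  have hn : 1 ≤ n := hno.pos
  have hnr : (1 : ℝ) ≤ n := by exact_mod_cast hn
  have hn0 : (0 : ℝ) < n := by linarith
  have hn2' := hn2 n (by omega)
  obtain ⟨J, hJ1, hJ2⟩ := exists_J z
  obtain ⟨T0, hT0⟩ : ∃ T0 : Finset ℕ, T0 = ((Icc 3 z).filter Nat.Prime).filter (fun l => l ≤ z0) := ⟨_, rfl⟩
  obtain ⟨P, hP⟩ : ∃ P : Finset ℕ, P = ((Icc 3 z).filter Nat.Prime).filter (fun l => ¬ l ≤ z0) := ⟨_, rfl⟩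
  have hT0U : T0 ⊆ U0 := by
    intro l hl
    rw [hT0, Finset.mem_filter, Finset.mem_filter, Finset.mem_Icc] at hl
    rw [hU0, Finset.mem_filter, Finset.mem_Icc]
    exact ⟨⟨hl.1.1.1, hl.2⟩, hl.1.2⟩
  have hPp : ∀ p ∈ P, p.Prime ∧ z0 < p ∧ p ≤ z := by
    intro p hp
    rw [hP, Finset.mem_filter, Finset.mem_filter, Finset.mem_Icc] at hp
    exact ⟨hp.1.2, by omega, hp.1.1.2⟩
  have hP2 : ∀ p ∈ P, p ≠ 2 := fun p hp => by have := (hPp p hp).2.1; omega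
  have hunion : (Icc 3 z).filter Nat.Prime = T0 ∪ P := by
    rw [hT0, hP, Finset.filter_union_filter_not_eq]
  have hdisj : Disjoint T0 P := by
    rw [hT0, hP]
    exact Finset.disjoint_filter_filter_not _ _ _
  have hgb : ∀ p ∈ P, 0 ≤ gg f n p ∧ gg f n p ≤ κ / ((p : ℝ) - 1) := fun p hp =>
    gg_bound f κ n p (hPp p hp).1 (hP2 p hp) (hbad p (hPp p hp).1 (hP2 p hp))
  -- densities of the good classes
  have hG0 : ∀ l : ℕ, l.Prime → l ≠ 2 → 0 < ((Gl n l).card : ℝ) := by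
    intro l hl hl2
    obtain ⟨c, hc, _⟩ := hloc l hl hl2
    exact_mod_cast Finset.card_pos.2 ⟨c, hc⟩
  have hBsub : ∀ l : ℕ, Bl f n l ⊆ Gl n l := fun l c hc => ((mem_Bl f n l c).1 hc).1
  have hcomp : ∀ l : ℕ, l.Prime → l ≠ 2 → (((Gl n l \ Bl f n l).card : ℕ) : ℝ) / (Gl n l).card = 1 - gg f n l := by
    intro l hl hl2
    have h1 := hG0 l hl hl2
    rw [Finset.card_sdiff_of_subset (hBsub l), Nat.cast_sub (Finset.card_le_card (hBsub l))]
    unfold gg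
    rw [sub_div, div_self h1.ne']
  have h1g : ∀ l ∈ T0, 1 / (l : ℝ) ^ 4 ≤ 1 - gg f n l := by
    intro l hl
    have h2 := hU0p l (hT0U hl)
    rw [← hcomp l h2.1 h2.2.1]
    obtain ⟨c, hc, hc'⟩ := hloc l h2.1 h2.2.1
    have h3 : 1 ≤ (Gl n l \ Bl f n l).card := by
      apply Finset.card_pos.2
      refine ⟨c, ?_⟩
      rw [Finset.mem_sdiff, mem_Bl]
      exact ⟨hc, fun h => hc' h.2⟩
    have h4 : ((Gl n l).card : ℝ) ≤ (l : ℝ) ^ 4 := by exact_mod_cast card_Gl_le n l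
    exact div_le_div₀ (Nat.cast_nonneg _) (by exact_mod_cast h3) (hG0 l h2.1 h2.2.1) h4
  have hprodT0 : 1 / (Z : ℝ) ^ 4 ≤ ∏ l ∈ T0, (1 - gg f n l) := by
    calc 1 / (Z : ℝ) ^ 4 ≤ ∏ l ∈ T0, (1 / (l : ℝ) ^ 4) := by
          have h1 : ∏ l ∈ T0, (1 / (l : ℝ) ^ 4) = 1 / ((∏ l ∈ T0, l : ℕ) : ℝ) ^ 4 := by
            push_cast
            rw [Finset.prod_div_distrib, Finset.prod_const_one, Finset.prod_pow]
          rw [h1]
          have h2 : ∏ l ∈ T0, l ≤ Z := by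
            rw [hZ]
            apply Finset.prod_le_prod_of_subset_of_one_le' hT0U
            intro l hl _
            exact (hU0p l hl).1.one_le
          have h3 : 0 < ∏ l ∈ T0, l := Finset.prod_pos fun l hl => (hU0p l (hT0U hl)).1.pos
          apply one_div_le_one_div_of_le
          · exact_mod_cast pow_pos h3 4
          · have : ((∏ l ∈ T0, l : ℕ) : ℝ) ≤ Z := by exact_mod_cast h2
            gcongr
      _ ≤ _ := Finset.prod_le_prod (fun l _ => by positivity) h1g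
  have hprodT00 : 0 ≤ ∏ l ∈ T0, (1 - gg f n l) := le_trans (by positivity) hprodT0
  -- the sieve
  obtain ⟨A, hA⟩ : ∃ A : ℝ, A = (preps n).card * ∏ l ∈ T0, (1 - gg f n l) := ⟨_, rfl⟩
  have hA0 : 0 ≤ A := by rw [hA]; exact mul_nonneg (Nat.cast_nonneg _) hprodT00
  obtain ⟨Q, hQ⟩ : ∃ Q : Finset (Fin 4 → ℤ), Q = (preps n).filter (fun X => ∀ l ∈ T0, red l X ∉ Bl f n l) := ⟨_, rfl⟩
  obtain ⟨e, he⟩ := exists_injective_nat (Fin 4 → ℤ)
  obtain ⟨Ω, hΩ⟩ : ∃ Ω : Finset ℕ, Ω = Q.map ⟨e, he⟩ := ⟨_, rfl⟩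
  obtain ⟨hit, hhit⟩ : ∃ hit : ℕ → ℕ → Prop, hit = fun p m => ∀ X, e X = m → red p X ∈ Bl f n p := ⟨_, rfl⟩
  have hhit' : ∀ p X, hit p (e X) ↔ red p X ∈ Bl f n p := by
    intro p X
    rw [hhit]
    constructor
    · intro h; exact h X rfl
    · intro h Y hY
      rw [he hY]; exact h
  obtain ⟨err, herr⟩ : ∃ err : Finset ℕ → ℝ, err = fun T => C * ((Z : ℝ) * ((∏ l ∈ T, l : ℕ) : ℝ)) ^ 15 * (n : ℝ) ^ (19 / 20 : ℝ) :=
    ⟨_, rfl⟩
  have hprimX : ∀ X ∈ preps n, ∀ l : ℕ, l.Prime → red l X ∈ Gl n l := by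
    intro X hX l hl
    unfold preps at hX
    rw [Finset.mem_filter, mem_reps] at hX
    exact red_mem n l hl X hX.1 hX.2
  have hfl := hFL b J z0 P (gg f n) (by omega) (by omega)
    (fun p hp => ⟨(hPp p hp).1, (hPp p hp).2.1, (hPp p hp).2.2.trans hJ1⟩)
    (fun p hp => hgb p hp) Ω (fun _ => 1) hit A err (fun _ _ => zero_le_one) hA0
    (fun T hT _ => by
      have hTT : Disjoint T0 T := Finset.disjoint_of_subset_right hT hdisj
      have h1 := hdist n 1 hn one_pos odd_one squarefree_one 0 (good_one n) (T0 ∪ T)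
        (fun l hl => by
          rw [Finset.mem_union] at hl
          rcases hl with hl | hl
          · have h2 := hU0p l (hT0U hl)
            exact ⟨h2.1, fun h => h2.1.one_lt.ne' (Nat.dvd_one.1 h), h2.2.1, Finset.card_pos.1 (by exact_mod_cast hG0 l h2.1 h2.2.1)⟩
          · have h2 := hPp l (hT hl)
            exact ⟨h2.1, fun h => h2.1.one_lt.ne' (Nat.dvd_one.1 h), hP2 l (hT hl),
              Finset.card_pos.1 (by exact_mod_cast hG0 l h2.1 (hP2 l (hT hl)))⟩)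
        (fun l => if l ∈ T0 then Gl n l \ Bl f n l else Bl f n l)
        (fun l _ => by
          by_cases hlT : l ∈ T0
          · simp only [hlT, if_true]
            exact Finset.sdiff_subset
          · simp only [hlT, if_false]
            exact hBsub l)
      have h2 : ∑ m ∈ Ω.filter (fun m => ∀ p ∈ T, hit p m), (1 : ℝ) =
          (((prc n 1 0).filter (fun X => ∀ l ∈ T0 ∪ T, red l X ∈
            (fun l => if l ∈ T0 then Gl n l \ Bl f n l else Bl f n l) l)).card : ℝ) := by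
        rw [Finset.sum_const, nsmul_eq_mul, mul_one, hΩ, Finset.filter_map, Finset.card_map, prc_one, hQ,
          Finset.filter_filter]
        congr 2
        apply Finset.filter_congr
        intro X hX
        simp only [Function.comp, Function.Embedding.coeFn_mk, hhit']
        constructor
        · rintro ⟨g1, g2⟩ l hl
          by_cases hlT : l ∈ T0
          · simp only [hlT, if_true]
            rw [Finset.mem_sdiff]
            exact ⟨hprimX X hX l (hU0p l (hT0U hlT)).1, g1 l hlT⟩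
          · simp only [hlT, if_false]
            rw [Finset.mem_union] at hl
            rcases hl with hl | hl
            · exact absurd hl hlT
            · exact g2 l hl
        · intro g
          refine ⟨fun l hl => ?_, fun l hl => ?_⟩
          · have := g l (Finset.mem_union_left _ hl)
            simp only [hl, if_true] at this
            exact (Finset.mem_sdiff.1 this).2
          · have hlT : l ∉ T0 := fun h => (Finset.disjoint_left.1 hTT) h hl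
            have := g l (Finset.mem_union_right _ hl)
            simp only [hlT, if_false] at this
            exact this
      have h3 : ∏ l ∈ T0 ∪ T, ((((if l ∈ T0 then Gl n l \ Bl f n l else Bl f n l).card : ℕ) : ℝ) / (Gl n l).card) =
          (∏ l ∈ T0, (1 - gg f n l)) * ∏ l ∈ T, gg f n l := by
        rw [Finset.prod_union hTT]
        congr 1
        · apply Finset.prod_congr rfl
          intro l hl
          rw [if_pos hl]
          have h2 := hU0p l (hT0U hl)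
          exact hcomp l h2.1 h2.2.1
        · apply Finset.prod_congr rfl
          intro l hl
          rw [if_neg (fun h => (Finset.disjoint_left.1 hTT) h hl)]
          rfl
      rw [h2, hA]
      have h4 : ((preps n).card : ℝ) * (∏ l ∈ T0, (1 - gg f n l)) * ∏ p ∈ T, gg f n p =
          ((prc n 1 0).card : ℝ) * ∏ l ∈ T0 ∪ T, ((((if l ∈ T0 then Gl n l \ Bl f n l else Bl f n l).card : ℕ) : ℝ) / (Gl n l).card) := by
        rw [h3, prc_one]
        ring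
      rw [h4]
      refine h1.trans ?_
      rw [herr]
      have h5 : ((∏ l ∈ T0 ∪ T, l : ℕ) : ℝ) ≤ (Z : ℝ) * ((∏ l ∈ T, l : ℕ) : ℝ) := by
        have h6 : ∏ l ∈ T0 ∪ T, l ≤ Z * ∏ l ∈ T, l := by
          rw [Finset.prod_union hTT]
          apply Nat.mul_le_mul_right
          rw [hZ]
          apply Finset.prod_le_prod_of_subset_of_one_le' hT0U
          intro l hl _
          exact (hU0p l hl).1.one_le
        exact_mod_cast h6
      simp only [Nat.cast_one, one_pow, mul_one]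
      gcongr)
  -- the sifted set
  have hScard : ∑ m ∈ Ω.filter (fun m => ∀ p ∈ P, ¬ hit p m), (1 : ℝ) =
      ((((preps n).filter (fun X => ∀ l ∈ (Icc 3 z).filter Nat.Prime, ¬ (l : ℤ) ∣ f X)).card : ℕ) : ℝ) := by
    rw [Finset.sum_const, nsmul_eq_mul, mul_one, hΩ, Finset.filter_map, Finset.card_map, hQ, Finset.filter_filter]
    congr 2
    ext X
    simp only [Finset.mem_filter, Function.comp, Function.Embedding.coeFn_mk, hhit']
    refine and_congr_right fun hX => ?_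
    have key : ∀ l : ℕ, l.Prime → (red l X ∉ Bl f n l ↔ ¬ (l : ℤ) ∣ f X) := by
      intro l hl
      rw [mem_Bl]
      have h1 := hprimX X hX l hl
      have h2 := hcong l X (red l X) (red_dvd l X)
      constructor
      · intro h3 h4
        apply h3
        refine ⟨h1, ?_⟩
        have := dvd_sub h4 h2
        rwa [sub_sub_cancel] at this
      · rintro h3 ⟨_, h4⟩
        apply h3
        have := dvd_add h2 h4
        rwa [sub_add_cancel] at this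
    have hmemu : ∀ l : ℕ, (l ∈ Icc 3 z ∧ l.Prime) ↔ (l ∈ T0 ∨ l ∈ P) := by
      intro l
      rw [← Finset.mem_filter, hunion, Finset.mem_union]
    simp only [hmemu]
    constructor
    · rintro ⟨g1, g2⟩ l hl
      rcases hl with hl | hl
      · exact (key l (hU0p l (hT0U hl)).1).1 (g1 l hl)
      · exact (key l (hPp l hl).1).1 (g2 l hl)
    · intro g
      exact ⟨fun l hl => (key l (hU0p l (hT0U hl)).1).2 (g l (Or.inl hl)),
        fun l hl => (key l (hPp l hl).1).2 (g l (Or.inr hl))⟩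
  have hprod : ((preps n).card : ℝ) * ∏ l ∈ (Icc 3 z).filter Nat.Prime, (1 - gg f n l) = A * ∏ p ∈ P, (1 - gg f n p) := by
    rw [hunion, Finset.prod_union hdisj, hA]
    ring
  rw [hprod]
  rw [hScard] at hfl
  -- bounds
  obtain ⟨V, hVdef⟩ : ∃ V : ℝ, V = ∏ p ∈ P, (1 - gg f n p) := ⟨_, rfl⟩
  have hz0le : 2 * (κ : ℝ) + 1 ≤ z0 := by
    rw [hz0]; push_cast
    have : (0:ℝ) ≤ C0 := by positivity
    linarith
  have hzmax : (1 : ℝ) ≤ ((max z 1 : ℕ) : ℝ) := by exact_mod_cast le_max_right z 1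
  have hzmax' : ((max z 1 : ℕ) : ℝ) ≤ (n : ℝ) ^ u := by
    rw [Nat.cast_max]
    apply max_le hzn
    rw [Nat.cast_one]
    exact Real.one_le_rpow hnr hu0.le
  have hV : c3 * ((max z 1 : ℕ) : ℝ) ^ (-(2 * κ : ℝ)) ≤ V := by
    rw [hc3, hVdef]
    apply prod_lower κ (max z 1) (le_max_right _ _) P
      (fun p hp => ⟨(hPp p hp).1.two_le, (hPp p hp).2.2.trans (le_max_left _ _)⟩) (gg f n)
      (fun p hp => (hgb p hp).1) (fun p hp => (hgb p hp).2)
    intro p hp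
    refine (hgb p hp).2.trans ?_
    have h1 : (z0 : ℝ) < p := by exact_mod_cast (hPp p hp).2.1
    rw [div_le_div_iff₀ (by linarith) (by norm_num)]
    linarith
  have hV2 : c3 * (n : ℝ) ^ (-(1 / 200 : ℝ)) ≤ V := by
    refine le_trans ?_ hV
    apply mul_le_mul_of_nonneg_left _ hc3pos.le
    have hm0 : (0 : ℝ) < ((max z 1 : ℕ) : ℝ) := by linarith
    rw [Real.rpow_neg hn0.le, Real.rpow_neg hm0.le]
    apply inv_anti₀ (Real.rpow_pos_of_pos hm0 _)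
    calc ((max z 1 : ℕ) : ℝ) ^ (2 * κ : ℝ) ≤ ((n : ℝ) ^ u) ^ (2 * κ : ℝ) :=
          Real.rpow_le_rpow hm0.le hzmax' (by positivity)
      _ = (n : ℝ) ^ (u * (2 * κ)) := by rw [← Real.rpow_mul hn0.le]
      _ ≤ _ := Real.rpow_le_rpow_of_exponent_le hnr hu2
  have hmain : c4 * (n : ℝ) ^ (99 / 100 : ℝ) ≤ A * V := by
    have h1 : c1 * (n : ℝ) ^ (1 - 1 / 200 : ℝ) * (1 / (Z : ℝ) ^ 4) ≤ A := by
      rw [hA]
      exact mul_le_mul (hlow n hno) hprodT0 (by positivity) (Nat.cast_nonneg _)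
    calc c4 * (n : ℝ) ^ (99 / 100 : ℝ) = (c1 * (n : ℝ) ^ (1 - 1 / 200 : ℝ) * (1 / (Z : ℝ) ^ 4)) * (c3 * (n : ℝ) ^ (-(1 / 200 : ℝ))) := by
          have : (n : ℝ) ^ (99 / 100 : ℝ) = (n : ℝ) ^ (1 - 1 / 200 : ℝ) * (n : ℝ) ^ (-(1 / 200 : ℝ)) := by
            rw [← Real.rpow_add hn0]; norm_num
          rw [this, hc4]; ring
      _ ≤ A * V := mul_le_mul h1 hV2 (by positivity) hA0
  obtain ⟨W, hW⟩ : ∃ W : ℕ, W = 2 ^ 2 ^ J := ⟨_, rfl⟩
  rw [← hW] at hJ1 hJ2 hfl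
  have hW2 : 2 ≤ W := by
    have h1 : 1 ≤ 2 ^ J := Nat.one_le_two_pow
    rw [hW]
    calc 2 = 2 ^ 1 := rfl
      _ ≤ 2 ^ 2 ^ J := Nat.pow_le_pow_right (by norm_num) h1
  have hWr : (W : ℝ) ≤ 8 * (n : ℝ) ^ (2 * u) := by
    have h1 : (W : ℝ) ≤ 2 * ((z : ℝ) + 1) ^ 2 := by exact_mod_cast hJ2
    have h2 : (1 : ℝ) ≤ (n : ℝ) ^ u := Real.one_le_rpow hnr hu0.le
    have h3 : (z : ℝ) + 1 ≤ 2 * (n : ℝ) ^ u := by linarith
    have h4 : (n : ℝ) ^ (2 * u) = ((n : ℝ) ^ u) ^ 2 := by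
      rw [← Real.rpow_natCast, ← Real.rpow_mul hn0.le]
      congr 1
      push_cast
      ring
    rw [h4]
    calc (W : ℝ) ≤ 2 * ((z : ℝ) + 1) ^ 2 := h1
      _ ≤ 2 * (2 * (n : ℝ) ^ u) ^ 2 := by gcongr
      _ = _ := by ring
  have hErr : ((J : ℝ) + 2) * ∑ T ∈ P.powerset.filter (fun T : Finset ℕ => ∏ p ∈ T, p ≤ W ^ (C0 * b)), err T ≤
      η / 2 * (A * V) := by
    have h1 : ∀ T ∈ P.powerset.filter (fun T : Finset ℕ => ∏ p ∈ T, p ≤ W ^ (C0 * b)), err T ≤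
        C * ((Z : ℝ) * (W : ℝ) ^ (C0 * b)) ^ 15 * (n : ℝ) ^ (19 / 20 : ℝ) := by
      intro T hT
      have h2 := (Finset.mem_filter.1 hT).2
      have h3 : ((∏ l ∈ T, l : ℕ) : ℝ) ≤ (W : ℝ) ^ (C0 * b) := by exact_mod_cast h2
      rw [herr]
      simp only
      gcongr
    have h2 := Finset.sum_le_sum h1
    rw [Finset.sum_const, nsmul_eq_mul] at h2
    have h3 := card_sets P (fun p hp => (hPp p hp).1) (W ^ (C0 * b))
    have h4 : (((P.powerset.filter (fun T : Finset ℕ => ∏ p ∈ T, p ≤ W ^ (C0 * b))).card : ℕ) : ℝ) ≤ (W : ℝ) ^ (C0 * b) := by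
      exact_mod_cast h3
    have hJz : (J : ℝ) + 2 ≤ 2 * W := by
      have h5 : J + 2 ≤ 2 * W := by
        have h6 : J < 2 ^ J := Nat.lt_two_pow_self
        have h7 : 2 ^ J < 2 ^ 2 ^ J := Nat.lt_two_pow_self
        rw [hW]
        omega
      exact_mod_cast h5
    have h5 : ((J : ℝ) + 2) * ∑ T ∈ P.powerset.filter (fun T : Finset ℕ => ∏ p ∈ T, p ≤ W ^ (C0 * b)), err T
        ≤ 2 * C * (Z : ℝ) ^ 15 * (W : ℝ) ^ E * (n : ℝ) ^ (19 / 20 : ℝ) := by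
      calc ((J : ℝ) + 2) * ∑ T ∈ P.powerset.filter (fun T : Finset ℕ => ∏ p ∈ T, p ≤ W ^ (C0 * b)), err T
          ≤ (2 * W) * ((W : ℝ) ^ (C0 * b) * (C * ((Z : ℝ) * (W : ℝ) ^ (C0 * b)) ^ 15 * (n : ℝ) ^ (19 / 20 : ℝ))) := by
            apply mul_le_mul hJz (h2.trans (by gcongr)) _ (by positivity)
            apply Finset.sum_nonneg
            intro T _
            rw [herr]
            positivity
        _ = _ := by rw [hE]; ring
    have h6 : (W : ℝ) ^ E ≤ 8 ^ E * (n : ℝ) ^ (1 / 200 : ℝ) := by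
      calc (W : ℝ) ^ E ≤ (8 * (n : ℝ) ^ (2 * u)) ^ E := by gcongr
        _ = 8 ^ E * (n : ℝ) ^ (2 * u * E) := by
          rw [mul_pow, ← Real.rpow_natCast ((n : ℝ) ^ (2 * u)), ← Real.rpow_mul hn0.le]
        _ ≤ 8 ^ E * (n : ℝ) ^ (1 / 200 : ℝ) := by
          apply mul_le_mul_of_nonneg_left _ (by positivity)
          exact Real.rpow_le_rpow_of_exponent_le hnr hu1
    refine h5.trans ?_
    rw [div_le_iff₀ (by positivity)] at hn2'
    have h7 : (n : ℝ) ^ (1 / 100 : ℝ) * ((n : ℝ) ^ (1 / 200 : ℝ) * (n : ℝ) ^ (19 / 20 : ℝ)) ≤ (n : ℝ) ^ (99 / 100 : ℝ) := by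
      rw [← Real.rpow_add hn0, ← Real.rpow_add hn0]
      apply Real.rpow_le_rpow_of_exponent_le hnr
      norm_num
    calc 2 * C * (Z : ℝ) ^ 15 * (W : ℝ) ^ E * (n : ℝ) ^ (19 / 20 : ℝ)
        ≤ 2 * C * (Z : ℝ) ^ 15 * (8 ^ E * (n : ℝ) ^ (1 / 200 : ℝ)) * (n : ℝ) ^ (19 / 20 : ℝ) := by gcongr
      _ = (2 * C * (Z : ℝ) ^ 15 * 8 ^ E) * ((n : ℝ) ^ (1 / 200 : ℝ) * (n : ℝ) ^ (19 / 20 : ℝ)) := by ring
      _ ≤ ((n : ℝ) ^ (1 / 100 : ℝ) * (η / 2 * c4)) * ((n : ℝ) ^ (1 / 200 : ℝ) * (n : ℝ) ^ (19 / 20 : ℝ)) := by gcongr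
      _ = η / 2 * (c4 * ((n : ℝ) ^ (1 / 100 : ℝ) * ((n : ℝ) ^ (1 / 200 : ℝ) * (n : ℝ) ^ (19 / 20 : ℝ)))) := by ring
      _ ≤ η / 2 * (c4 * (n : ℝ) ^ (99 / 100 : ℝ)) := by gcongr
      _ ≤ η / 2 * (A * V) := by gcongr
  rw [← hVdef] at hfl ⊢
  have hAV : 0 ≤ A * V := le_trans (by positivity) hmain
  calc _ ≤ (1 / 2 : ℝ) ^ b * (A * V) + η / 2 * (A * V) := by
        refine (le_trans (le_of_eq ?_) hfl).trans (by gcongr)
        congr 3
      _ ≤ η / 2 * (A * V) + η / 2 * (A * V) := by gcongr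
      _ = η * (A * V) := by ring

end Pool.Agent.X37.FS
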