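import Pool.Agent.X37.RD.Rec

/-!
# Comparison of Rankin's function at `n` and at a power of `n`
-/

set_option autoImplicit false

namespace Pool.Agent.X37.FS

open Filter
open Pool.Agent.X37.RD

lemma scaleR (D : ℝ) (hD : 1 ≤ D) : ∀ᶠ L : ℝ in atTop, ∀ y : ℝ, L / D ≤ y → y ≤ L →
    1 / (4 * D) * (L * Real.log L * Real.log (Real.log (Real.log L)) / (Real.log (Real.log L)) ^ 2) ≤
      y * Real.log y * Real.log (Real.log (Real.log y)) / (Real.log (Real.log y)) ^ 2 := by
  have t1 := Real.tendsto_log_atTop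
  have t2 := Real.tendsto_log_atTop.comp Real.tendsto_log_atTop
  have t3 := Real.tendsto_log_atTop.comp t2
  filter_upwards [eventually_gt_atTop 0, t1.eventually_ge_atTop (2 * Real.log D + 10), t2.eventually_ge_atTop 2,
    t3.eventually_ge_atTop 2] with L hL h3 h4 h5 y h1 h2
  simp only [Function.comp] at h4 h5
  obtain ⟨u, hu⟩ : ∃ u, u = Real.log L := ⟨_, rfl⟩
  rw [← hu] at h3 h4 h5 ⊢
  obtain ⟨v, hv⟩ : ∃ v, v = Real.log u := ⟨_, rfl⟩
  rw [← hv] at h4 h5 ⊢
  obtain ⟨w, hw⟩ : ∃ w, w = Real.log v := ⟨_, rfl⟩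
  rw [← hw] at h5 ⊢
  have hD0 : 0 < D := by linarith
  have hlD : 0 ≤ Real.log D := Real.log_nonneg hD
  have hy0 : (0 : ℝ) < y := lt_of_lt_of_le (by positivity) h1
  have l2 : Real.log 2 ≤ 1 := by
    have := Real.log_le_sub_one_of_pos (by norm_num : (0 : ℝ) < 2)
    linarith
  have a1 : u / 2 ≤ Real.log y := by
    have h6 : Real.log (L / D) ≤ Real.log y := Real.log_le_log (by positivity) h1
    rw [Real.log_div hL.ne' hD0.ne', ← hu] at h6
    linarith
  have a2 : Real.log y ≤ u := by
    rw [hu]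
    exact Real.log_le_log hy0 h2
  have b1 : v / 2 ≤ Real.log (Real.log y) := by
    have h6 : Real.log (u / 2) ≤ Real.log (Real.log y) := Real.log_le_log (by linarith) a1
    rw [Real.log_div (by linarith) (by norm_num), ← hv] at h6
    linarith
  have b2 : Real.log (Real.log y) ≤ v := by
    rw [hv]
    apply Real.log_le_log (by linarith) a2
  have c1 : w / 2 ≤ Real.log (Real.log (Real.log y)) := by
    have h6 : Real.log (v / 2) ≤ Real.log (Real.log (Real.log y)) := Real.log_le_log (by linarith) b1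
    rw [Real.log_div (by linarith) (by norm_num), ← hw] at h6
    linarith
  have b3 : 0 < Real.log (Real.log y) := by linarith
  have d1 : 0 ≤ Real.log y := by linarith
  have d2 : 0 ≤ Real.log (Real.log (Real.log y)) := by linarith
  have w0 : 0 ≤ w / 2 := by linarith
  have u0 : 0 ≤ u / 2 := by linarith
  have L0 : 0 ≤ L / D := by positivity
  calc 1 / (4 * D) * (L * u * w / v ^ 2) = (L / D) * (u / 2) * (w / 2) / v ^ 2 := by field_simp; ring
    _ ≤ y * Real.log y * Real.log (Real.log (Real.log y)) / (Real.log (Real.log y)) ^ 2 := by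
        gcongr

/-- Rankin's function at `N` and at `n ≤ N ^ d` -/
theorem RR_cmp (d : ℕ) (hd : 1 ≤ d) : ∀ᶠ n : ℕ in atTop, ∀ N : ℕ, n ≤ N ^ d → N ≤ n → RR n / (4 * d) ≤ RR N := by
  have t1 : Tendsto (fun N : ℕ => Real.log N) atTop atTop := Real.tendsto_log_atTop.comp tendsto_natCast_atTop_atTop
  have hd' : (1 : ℝ) ≤ d := by exact_mod_cast hd
  filter_upwards [t1.eventually (scaleR d hd'), eventually_ge_atTop 1] with n h hn N h1 h2
  have hN0 : 0 < N := by
    rcases Nat.eq_zero_or_pos N with h0 | h0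
    · rw [h0, zero_pow (by omega)] at h1
      omega
    · exact h0
  have hN0r : (0 : ℝ) < N := by exact_mod_cast hN0
  have hn0r : (0 : ℝ) < n := by exact_mod_cast hn
  have e1 : Real.log n ≤ d * Real.log N := by
    rw [← Real.log_pow]
    apply Real.log_le_log hn0r
    exact_mod_cast h1
  have e2 : Real.log N ≤ Real.log n := by
    apply Real.log_le_log hN0r
    exact_mod_cast h2
  have := h (Real.log N) (by rw [div_le_iff₀ (by linarith)]; linarith) e2
  unfold RR
  refine le_trans (le_of_eq ?_) this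
  ring

end Pool.Agent.X37.FS
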