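import Pool.Agent.X37.FS.Surj

/-!
# Local surjectivity: the pair `x² + y² + z² + w² = n`, `x² + 3 y² + 5 z² + 7 w² = r`
-/

set_option autoImplicit false
open Finset

namespace Pool.Agent.X37.FS

section field
variable {F : Type} [Field F] [Fintype F] [DecidableEq F]

lemma N4_V (a b c d t : F) : N4 a b c d t = ∑ v : F × F × F × F,
    if a * v.2.2.1 ^ 2 + b * v.2.2.2 ^ 2 + (c * v.1 ^ 2 + d * v.2.1 ^ 2) = t then (1 : ℤ) else 0 := by
  rw [N4_expand, Fintype.sum_prod_type]
  refine Finset.sum_congr rfl fun z _ => ?_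
  rw [Fintype.sum_prod_type]
  refine Finset.sum_congr rfl fun w _ => ?_
  rw [Fintype.sum_prod_type]

/-- the first form -/
def A1 (v : F × F × F × F) : F := v.2.2.1 ^ 2 + v.2.2.2 ^ 2 + (v.1 ^ 2 + v.2.1 ^ 2)

/-- the second form -/
def B1 (v : F × F × F × F) : F := v.2.2.1 ^ 2 + 3 * v.2.2.2 ^ 2 + (5 * v.1 ^ 2 + 7 * v.2.1 ^ 2)

lemma lines (n r : F) :
    ∑ t : F, N4 (1 - t) (3 - t) (5 - t) (7 - t) (r - t * n) + N4 1 1 1 1 n =
      (Fintype.card F : ℤ) ^ 4 + (Fintype.card F : ℤ) * ∑ v : F × F × F × F, if A1 v = n ∧ B1 v = r then (1 : ℤ) else 0 := by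
  have key : ∀ v : F × F × F × F, (∑ t : F, if (1 - t) * v.2.2.1 ^ 2 + (3 - t) * v.2.2.2 ^ 2 +
      ((5 - t) * v.1 ^ 2 + (7 - t) * v.2.1 ^ 2) = r - t * n then (1 : ℤ) else 0) +
      (if 1 * v.2.2.1 ^ 2 + 1 * v.2.2.2 ^ 2 + (1 * v.1 ^ 2 + 1 * v.2.1 ^ 2) = n then (1 : ℤ) else 0) =
      1 + (Fintype.card F : ℤ) * (if A1 v = n ∧ B1 v = r then (1 : ℤ) else 0) := by
    intro v
    have h1 : ∀ t : F, ((1 - t) * v.2.2.1 ^ 2 + (3 - t) * v.2.2.2 ^ 2 +
      ((5 - t) * v.1 ^ 2 + (7 - t) * v.2.1 ^ 2) = r - t * n) ↔ (B1 v - r = t * (A1 v - n)) := by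
      intro t
      unfold A1 B1
      constructor
      · intro h; linear_combination h
      · intro h; linear_combination h
    have h2 : (1 * v.2.2.1 ^ 2 + 1 * v.2.2.2 ^ 2 + (1 * v.1 ^ 2 + 1 * v.2.1 ^ 2) = n) ↔ A1 v = n := by
      unfold A1
      constructor
      · intro h; linear_combination h
      · intro h; linear_combination h
    simp_rw [h1, h2]
    by_cases hA : A1 v = n
    · rw [if_pos hA]
      by_cases hB : B1 v = r
      · rw [if_pos ⟨hA, hB⟩]
        have : ∀ t : F, (if B1 v - r = t * (A1 v - n) then (1 : ℤ) else 0) = 1 := by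
          intro t
          rw [if_pos (by rw [hA, hB]; ring)]
        simp_rw [this]
        simp only [Finset.sum_const, Finset.card_univ, nsmul_eq_mul, mul_one]
        ring
      · rw [if_neg (fun h => hB h.2)]
        have : ∀ t : F, (if B1 v - r = t * (A1 v - n) then (1 : ℤ) else 0) = 0 := by
          intro t
          rw [if_neg]
          rw [hA, sub_self, mul_zero]
          exact sub_ne_zero.2 hB
        simp_rw [this]
        simp
    · rw [if_neg hA, if_neg (fun h => hA h.1)]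
      have hA' : A1 v - n ≠ 0 := sub_ne_zero.2 hA
      have : ∀ t : F, (if B1 v - r = t * (A1 v - n) then (1 : ℤ) else 0) =
          if t = (B1 v - r) / (A1 v - n) then 1 else 0 := by
        intro t
        congr 1
        rw [eq_div_iff hA']
        exact propext ⟨fun h => h.symm, fun h => h.symm⟩
      simp_rw [this]
      rw [Finset.sum_ite_eq' univ]
      simp
  simp_rw [N4_V]
  rw [Finset.sum_comm, ← Finset.sum_add_distrib, Finset.sum_congr rfl fun v _ => key v, Finset.sum_add_distrib,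
    ← Finset.mul_sum]
  congr 1
  simp only [Finset.sum_const, Finset.card_univ, nsmul_eq_mul, mul_one, Fintype.card_prod]
  push_cast
  ring

lemma N4_gen (hF : ringChar F ≠ 2) (a b c d t : F) (h : (a ≠ 0 ∧ b ≠ 0 ∧ (c ≠ 0 ∨ d ≠ 0)) ∨ (c ≠ 0 ∧ d ≠ 0 ∧ (a ≠ 0 ∨ b ≠ 0))) :
    (Fintype.card F : ℤ) ^ 3 - (Fintype.card F : ℤ) ^ 2 ≤ N4 a b c d t := by
  rcases h with ⟨h1, h2, h3⟩ | ⟨h1, h2, h3⟩
  · exact N4_low hF a b c d t h1 h2 h3
  · rw [N4_comm]; exact N4_low hF c d a b t h1 h2 h3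

theorem exists_pair (hF : ringChar F ≠ 2) (hq : 7 ≤ Fintype.card F) (h4 : (4 : F) ≠ 0) (h6 : (6 : F) ≠ 0)
    (n r : F) (hr : r ≠ 0) : ∃ v : F × F × F × F, A1 v = n ∧ B1 v = r := by
  obtain ⟨q, hqdef⟩ : ∃ q : ℤ, q = Fintype.card F := ⟨_, rfl⟩
  have hq7 : 7 ≤ q := by rw [hqdef]; exact_mod_cast hq
  have h2 : (2 : F) ≠ 0 := fun h => h4 (by linear_combination 2 * h)
  have hl := lines n r
  rw [← hqdef] at hl
  obtain ⟨Bad, hBad⟩ : ∃ Bad : Finset F, Bad = {1, 3, 5, 7} ∪ univ.filter (fun t : F => r = t * n) := ⟨_, rfl⟩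
  have hall : ∀ t : F, q ^ 3 - q ^ 2 ≤ N4 (1 - t) (3 - t) (5 - t) (7 - t) (r - t * n) := by
    intro t
    rw [hqdef]
    apply N4_gen hF
    by_cases ha : 1 - t = 0
    · right
      refine ⟨fun h => h4 (by linear_combination h - ha), fun h => h6 (by linear_combination h - ha),
        Or.inr (fun h => h2 (by linear_combination h - ha))⟩
    · by_cases hb : 3 - t = 0
      · right
        refine ⟨fun h => h2 (by linear_combination h - hb), fun h => h4 (by linear_combination h - hb), Or.inl ha⟩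
      · left
        refine ⟨ha, hb, ?_⟩
        by_cases hc : 5 - t = 0
        · right
          exact fun h => h2 (by linear_combination h - hc)
        · exact Or.inl hc
  have hgood : ∀ t : F, t ∉ Bad → q ^ 3 - q ≤ N4 (1 - t) (3 - t) (5 - t) (7 - t) (r - t * n) := by
    intro t ht
    rw [hBad, mem_union, not_or] at ht
    simp only [mem_insert, mem_singleton, not_or, mem_filter, mem_univ, true_and] at ht
    obtain ⟨⟨t1, t3, t5, t7⟩, tr⟩ := ht
    rw [hqdef]
    exact N4_low' hF _ _ _ _ _ (sub_ne_zero.2 (Ne.symm t1)) (sub_ne_zero.2 (Ne.symm t3)) (sub_ne_zero.2 (Ne.symm t5))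
      (sub_ne_zero.2 (Ne.symm t7)) (sub_ne_zero.2 tr)
  have hBle : (Bad.card : ℤ) ≤ 4 + (if n = 0 then 0 else 1) := by
    have h1 : ({1, 3, 5, 7} : Finset F).card ≤ 4 := by
      refine (Finset.card_insert_le _ _).trans ?_
      have := Finset.card_insert_le (3 : F) {5, 7}
      have h3 := Finset.card_insert_le (5 : F) {7}
      rw [Finset.card_singleton] at h3
      omega
    have h3 : (univ.filter (fun t : F => r = t * n)).card ≤ if n = 0 then 0 else 1 := by
      split_ifs with hn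
      · rw [Nat.le_zero, Finset.card_eq_zero, Finset.filter_eq_empty_iff]
        intro t _ h
        rw [hn, mul_zero] at h
        exact hr h
      · rw [Finset.card_le_one]
        intro s hs t ht
        rw [mem_filter] at hs ht
        have : (s - t) * n = 0 := by linear_combination ht.2 - hs.2
        rcases mul_eq_zero.1 this with h | h
        · exact sub_eq_zero.1 h
        · exact absurd h hn
    have h5 : Bad.card ≤ 4 + (if n = 0 then 0 else 1) := by
      rw [hBad]
      exact (Finset.card_union_le _ _).trans (add_le_add h1 h3)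
    exact_mod_cast h5
  have hsum : q * (q ^ 3 - q) - Bad.card * q ^ 2 ≤ ∑ t : F, N4 (1 - t) (3 - t) (5 - t) (7 - t) (r - t * n) := by
    have h1 : ∀ t : F, (q ^ 3 - q) - (if t ∈ Bad then q ^ 2 else 0) ≤ N4 (1 - t) (3 - t) (5 - t) (7 - t) (r - t * n) := by
      intro t
      by_cases ht : t ∈ Bad
      · rw [if_pos ht]
        have := hall t
        linarith
      · rw [if_neg ht, sub_zero]
        exact hgood t ht
    have h3 := Finset.sum_le_sum (s := univ) (fun t _ => h1 t)
    rw [Finset.sum_sub_distrib, Finset.sum_const, Finset.card_univ, nsmul_eq_mul, ← hqdef, Finset.sum_ite_mem,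
      Finset.univ_inter, Finset.sum_const, nsmul_eq_mul] at h3
    exact h3
  have hone : q ^ 3 - q ^ 2 ≤ N4 1 1 1 1 n := by
    rw [hqdef]
    exact N4_low hF 1 1 1 1 n one_ne_zero one_ne_zero (Or.inl one_ne_zero)
  have hone' : n ≠ 0 → q ^ 3 - q ≤ N4 1 1 1 1 n := by
    intro hn
    rw [hqdef]
    exact N4_low' hF 1 1 1 1 n one_ne_zero one_ne_zero one_ne_zero one_ne_zero hn
  by_contra hno
  push Not at hno
  have hzero : ∑ v : F × F × F × F, (if A1 v = n ∧ B1 v = r then (1 : ℤ) else 0) = 0 := by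
    apply Finset.sum_eq_zero
    intro v _
    rw [if_neg]
    rintro ⟨h1, h3⟩
    exact hno v h1 h3
  rw [hzero, mul_zero, add_zero] at hl
  by_cases hn : n = 0
  · rw [if_pos hn] at hBle
    nlinarith [mul_le_mul_of_nonneg_right hBle (sq_nonneg q), mul_pos (show (0:ℤ) < q by linarith) (show (0:ℤ) < q by linarith)]
  · rw [if_neg hn] at hBle
    have := hone' hn
    nlinarith [mul_le_mul_of_nonneg_right hBle (sq_nonneg q), mul_pos (show (0:ℤ) < q by linarith) (show (0:ℤ) < q by linarith)]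

end field

open Pool.Agent.W65.FS

lemma loc3' : ∀ n r : Fin 3, r.val ≠ 0 → ∃ x y z w : Fin 3, (x.val ^ 2 + y.val ^ 2 + z.val ^ 2 + w.val ^ 2) % 3 = n.val ∧
    (x.val ^ 2 + 3 * y.val ^ 2 + 5 * z.val ^ 2 + 7 * w.val ^ 2) % 3 = r.val := by decide

lemma loc5' : ∀ n r : Fin 5, r.val ≠ 0 → ∃ x y z w : Fin 5, (x.val ^ 2 + y.val ^ 2 + z.val ^ 2 + w.val ^ 2) % 5 = n.val ∧
    (x.val ^ 2 + 3 * y.val ^ 2 + 5 * z.val ^ 2 + 7 * w.val ^ 2) % 5 = r.val := by decide

/-- a class with given sum of squares and given value of the second form -/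
theorem surj (l : ℕ) (hl : l.Prime) (hl2 : l ≠ 2) (n : ℕ) (r : ℤ) (hr : ¬ (l : ℤ) ∣ r) :
    ∃ c ∈ Gl n l, (l : ℤ) ∣ pf c - r := by
  classical
  have hl0 : (0 : ℤ) < l := by exact_mod_cast hl.pos
  -- it suffices to find natural numbers
  have key : ∀ x y z w : ℕ, x < l → y < l → z < l → w < l →
      (l : ℤ) ∣ ((x : ℤ) ^ 2 + y ^ 2 + z ^ 2 + w ^ 2) - n → (l : ℤ) ∣ ((x : ℤ) ^ 2 + 3 * y ^ 2 + 5 * z ^ 2 + 7 * w ^ 2) - r →
      ∃ c ∈ Gl n l, (l : ℤ) ∣ pf c - r := by
    intro x y z w hx hy hz hw h1 h2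
    refine ⟨![(x : ℤ), y, z, w], ?_, ?_⟩
    · rw [mem_Gl]
      refine ⟨?_, ?_, ?_⟩
      · intro i
        fin_cases i <;> simp <;> omega
      · rw [Fin.sum_univ_four]
        simpa using h1
      · by_contra h
        push Not at h
        have g0 : (l : ℤ) ∣ (x : ℤ) := by simpa using h 0
        have g1 : (l : ℤ) ∣ (y : ℤ) := by simpa using h 1
        have g2 : (l : ℤ) ∣ (z : ℤ) := by simpa using h 2
        have g3 : (l : ℤ) ∣ (w : ℤ) := by simpa using h 3
        apply hr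
        have e : r = ((x : ℤ) * x + 3 * (y * y) + 5 * (z * z) + 7 * (w * w)) -
            (((x : ℤ) ^ 2 + 3 * y ^ 2 + 5 * z ^ 2 + 7 * w ^ 2) - r) := by ring
        rw [e]
        refine dvd_sub ?_ h2
        exact dvd_add (dvd_add (dvd_add (g0.mul_right _) ((g1.mul_right _).mul_left _)) ((g2.mul_right _).mul_left _))
          ((g3.mul_right _).mul_left _)
    · unfold pf
      simpa using h2
  by_cases h7 : 7 ≤ l
  · have : Fact l.Prime := ⟨hl⟩
    have : NeZero l := ⟨hl.ne_zero⟩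
    have hF : ringChar (ZMod l) ≠ 2 := by rw [ZMod.ringChar_zmod_n]; exact hl2
    have hnz : ∀ k : ℕ, 0 < k → k < l → ((k : ℕ) : ZMod l) ≠ 0 := by
      intro k hk0 hk h
      rw [ZMod.natCast_eq_zero_iff] at h
      exact absurd (Nat.le_of_dvd hk0 h) (by omega)
    have h4 : (4 : ZMod l) ≠ 0 := by exact_mod_cast hnz 4 (by norm_num) (by omega)
    have h6 : (6 : ZMod l) ≠ 0 := by exact_mod_cast hnz 6 (by norm_num) (by omega)
    have hr' : (r : ZMod l) ≠ 0 := fun h => hr ((ZMod.intCast_zmod_eq_zero_iff_dvd r l).1 h)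
    obtain ⟨v, h1, h2⟩ := exists_pair hF (by rw [ZMod.card]; exact h7) h4 h6 (n : ZMod l) (r : ZMod l) hr'
    unfold A1 at h1
    unfold B1 at h2
    apply key (v.2.2.1.val) (v.2.2.2.val) (v.1.val) (v.2.1.val) (ZMod.val_lt _) (ZMod.val_lt _) (ZMod.val_lt _) (ZMod.val_lt _)
    · rw [← ZMod.intCast_zmod_eq_zero_iff_dvd]
      push_cast
      simp only [ZMod.natCast_zmod_val]
      linear_combination h1
    · rw [← ZMod.intCast_zmod_eq_zero_iff_dvd]
      push_cast
      simp only [ZMod.natCast_zmod_val]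
      linear_combination h2
  · have hcases : l = 3 ∨ l = 5 := by
      have := hl.two_le
      have h11 : l < 7 := by omega
      interval_cases l <;> first | omega | (exfalso; revert hl; decide)
    have conv : ∀ (a b : ℕ) (c : ℤ), a % l = b → (l : ℤ) ∣ (b : ℤ) - c → (l : ℤ) ∣ (a : ℤ) - c := by
      intro a b c hab hbc
      have h1 : (l : ℤ) ∣ (a : ℤ) - b := by
        rw [← hab]
        push_cast
        exact Int.dvd_self_sub_emod
      have := dvd_add h1 hbc
      simpa using this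
    have hrr : (l : ℤ) ∣ ((r % l).toNat : ℤ) - r := by
      rw [Int.toNat_of_nonneg (Int.emod_nonneg _ hl0.ne')]
      rw [dvd_sub_comm]
      exact Int.dvd_self_sub_emod
    have hrlt : (r % l).toNat < l := by
      have h1 := Int.emod_lt_of_pos r hl0
      have h2 := Int.emod_nonneg r hl0.ne'
      omega
    have hrne : (r % l).toNat ≠ 0 := by
      intro h
      apply hr
      have h2 := Int.emod_nonneg r hl0.ne'
      apply Int.dvd_of_emod_eq_zero
      omega
    have hnn : (l : ℤ) ∣ ((n % l : ℕ) : ℤ) - n := by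
      rw [dvd_sub_comm]
      push_cast
      exact Int.dvd_self_sub_emod
    rcases hcases with rfl | rfl
    · obtain ⟨x, y, z, w, h1, h2⟩ := loc3' ⟨n % 3, Nat.mod_lt _ (by norm_num)⟩ ⟨_, hrlt⟩ hrne
      refine key x y z w x.2 y.2 z.2 w.2 ?_ ?_
      · have := conv _ _ _ h1 hnn
        push_cast at this ⊢
        exact this
      · have := conv _ _ _ h2 hrr
        push_cast at this ⊢
        exact this
    · obtain ⟨x, y, z, w, h1, h2⟩ := loc5' ⟨n % 5, Nat.mod_lt _ (by norm_num)⟩ ⟨_, hrlt⟩ hrne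
      refine key x y z w x.2 y.2 z.2 w.2 ?_ ?_
      · have := conv _ _ _ h1 hnn
        push_cast at this ⊢
        exact this
      · have := conv _ _ _ h2 hrr
        push_cast at this ⊢
        exact this

end Pool.Agent.X37.FS
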