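import Pool.Agent.X37.FS.Mod
import Pool.Agent.X37.FS.Surj2
import Pool.Agent.W65.FS.Final

/-!
# Almost prime patterns around `x² + 3 y² + 5 z² + 7 w²` on the sphere, in residue classes
-/

set_option autoImplicit false
open Finset

namespace Pool.Agent.X37.FS
open Pool.Agent.W65.FS

/-- a class modulo `M` in which the form has prescribed nonzero residues -/
theorem exists_class (n M : ℕ) (hMo : Odd M) (hMs : Squarefree M) (ρ : ℕ → ℤ)
    (hρ : ∀ l : ℕ, l.Prime → l ∣ M → ¬ (l : ℤ) ∣ ρ l) :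
    ∃ v : Fin 4 → ℤ, Good n M v ∧ ∀ l : ℕ, l.Prime → l ∣ M → (l : ℤ) ∣ pf v - ρ l := by
  classical
  have hex : ∀ l : ℕ, ∃ c : Fin 4 → ℤ, l ∈ M.primeFactors → (c ∈ Gl n l ∧ (l : ℤ) ∣ pf c - ρ l) := by
    intro l
    by_cases hl : l ∈ M.primeFactors
    · have h1 := Nat.prime_of_mem_primeFactors hl
      have h2 := Nat.dvd_of_mem_primeFactors hl
      have h3 : l ≠ 2 := by
        rintro rfl
        exact (Nat.not_even_iff_odd.2 hMo) (even_iff_two_dvd.2 h2)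
      obtain ⟨c, hc, hc'⟩ := surj l h1 h3 n (ρ l) (hρ l h1 h2)
      exact ⟨c, fun _ => ⟨hc, hc'⟩⟩
    · exact ⟨0, fun h => absurd h hl⟩
  choose cc hcc using hex
  have hT : ∀ l ∈ M.primeFactors, l.Prime ∧ ¬ l ∣ 1 := fun l hl =>
    ⟨Nat.prime_of_mem_primeFactors hl, fun h => (Nat.prime_of_mem_primeFactors hl).one_lt.ne' (Nat.dvd_one.1 h)⟩
  have hex2 : ∀ i : Fin 4, ∃ x : ℤ, ((1 : ℕ) : ℤ) ∣ x - 0 ∧ ∀ l ∈ M.primeFactors, (l : ℤ) ∣ x - cc l i :=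
    fun i => crt_exists 1 0 M.primeFactors hT (fun l => cc l i)
  choose v _ hv using hex2
  have hmem : ∀ l : ℕ, l.Prime → l ∣ M → l ∈ M.primeFactors := fun l hl hlM =>
    Nat.mem_primeFactors.2 ⟨hl, hlM, hMo.pos.ne'⟩
  have hdv : ∀ x : ℤ, (M : ℤ) ∣ x ↔ ∀ l ∈ M.primeFactors, (l : ℤ) ∣ x := by
    intro x
    have h := dvd_all 1 M.primeFactors hT x
    rw [one_mul, prod_pf hMs] at h
    rw [h]
    simp
  refine ⟨v, ⟨?_, ?_⟩, ?_⟩
  · rw [hdv]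
    intro l hl
    have h1 : (∑ i, v i ^ 2) - (n : ℤ) = ((∑ i, cc l i ^ 2) - n) + ∑ i, (v i - cc l i) * (v i + cc l i) := by
      simp only [Fin.sum_univ_four]; ring
    rw [h1]
    exact dvd_add ((mem_Gl n l _).1 (hcc l hl).1).2.1 (Finset.dvd_sum fun i _ => (hv i l hl).mul_right _)
  · intro l hl hlM
    obtain ⟨i, hi⟩ := ((mem_Gl n l _).1 (hcc l (hmem l hl hlM)).1).2.2
    refine ⟨i, fun h2 => hi ?_⟩
    have := dvd_sub h2 (hv i l (hmem l hl hlM))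
    simpa using this
  · intro l hl hlM
    have h1 := pf_congr l v (cc l) (fun i => hv i l (hmem l hl hlM))
    have h2 := dvd_add h1 (hcc l (hmem l hl hlM)).2
    have e : pf v - pf (cc l) + (pf (cc l) - ρ l) = pf v - ρ l := by ring
    rwa [e] at h2

/-- the product of the shifted values -/
def fH (H : Finset ℤ) (X : Fin 4 → ℤ) : ℤ := ∏ h ∈ H, (pf X + h)

lemma fH_congr (H : Finset ℤ) (l : ℕ) (X Y : Fin 4 → ℤ) (h : ∀ i, (l : ℤ) ∣ X i - Y i) :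
    (l : ℤ) ∣ fH H X - fH H Y := by
  classical
  have h1 := pf_congr l X Y h
  unfold fH
  induction H using Finset.induction_on with
  | empty => simp
  | insert a s ha ih =>
    rw [Finset.prod_insert ha, Finset.prod_insert ha]
    have e : (pf X + a) * ∏ h ∈ s, (pf X + h) - (pf Y + a) * ∏ h ∈ s, (pf Y + h) =
        (pf X - pf Y) * ∏ h ∈ s, (pf X + h) + (pf Y + a) * (∏ h ∈ s, (pf X + h) - ∏ h ∈ s, (pf Y + h)) := by ring
    rw [e]
    exact dvd_add (h1.mul_right _) (ih.mul_left _)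

lemma fH_dvd (H : Finset ℤ) (l : ℕ) (hl : l.Prime) (X : Fin 4 → ℤ) (h : (l : ℤ) ∣ fH H X) :
    ∃ a ∈ H, (l : ℤ) ∣ pf X + a := by
  have hlp : Prime (l : ℤ) := Nat.prime_iff_prime_int.1 hl
  exact (hlp.dvd_finsetProd_iff _).1 h

lemma dvd_fH (H : Finset ℤ) (l : ℕ) (X : Fin 4 → ℤ) (a : ℤ) (ha : a ∈ H) (h : (l : ℤ) ∣ pf X + a) :
    (l : ℤ) ∣ fH H X := h.trans (Finset.dvd_prod_of_mem _ ha)

lemma fH_bad (H : Finset ℤ) (k : ℕ) (hk : H.card ≤ k) (l : ℕ) (hl : l.Prime) (hl2 : l ≠ 2) (n : ℕ) :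
    (Bl (fH H) n l).card ≤ (4 * k) * l ^ 2 := by
  classical
  have hsub : Bl (fH H) n l ⊆ H.biUnion (fun h => (Gl n l).filter (fun c => (l : ℤ) ∣ pf c - (-h))) := by
    intro c hc
    rw [mem_Bl] at hc
    obtain ⟨a, ha, h⟩ := fH_dvd H l hl c hc.2
    rw [Finset.mem_biUnion]
    refine ⟨a, ha, ?_⟩
    rw [Finset.mem_filter]
    exact ⟨hc.1, by rwa [sub_neg_eq_add]⟩
  refine (Finset.card_le_card hsub).trans (Finset.card_biUnion_le.trans ?_)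
  calc ∑ h ∈ H, ((Gl n l).filter (fun c => (l : ℤ) ∣ pf c - (-h))).card ≤ ∑ _h ∈ H, 4 * l ^ 2 :=
        Finset.sum_le_sum fun h _ => bad_tau l hl hl2 n (-h) _ (fun c hc => Finset.mem_filter.1 hc)
    _ = H.card * (4 * l ^ 2) := by rw [Finset.sum_const, smul_eq_mul]
    _ ≤ k * (4 * l ^ 2) := Nat.mul_le_mul_right _ hk
    _ = _ := by ring

/-- **almost prime patterns in residue classes** -/
theorem pattern (k : ℕ) (ε : ℝ) (hε : 0 < ε) : ∃ K : ℕ, ∃ δ : ℝ, 0 < δ ∧ ∃ n0 : ℕ, ∀ n : ℕ, Odd n → n0 ≤ n →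
    ∀ H : Finset ℤ, H.card ≤ k → 0 ∈ H → (∀ h ∈ H, Even h ∧ 2 * |h| ≤ n) →
    (∀ l : ℕ, l.Prime → ∃ a : ℤ, ∀ h ∈ H, ¬ (l : ℤ) ∣ a + h) →
    ∀ M : ℕ, Odd M → Squarefree M → (M : ℝ) ≤ (n : ℝ) ^ δ → ∀ v : Fin 4 → ℤ, (M : ℤ) ∣ (∑ i, v i ^ 2) - n →
    (∀ l : ℕ, l.Prime → l ∣ M → ∀ h ∈ H, ¬ (l : ℤ) ∣ pf v + h) →
    ∃ S : Finset (Fin 4 → ℤ), (n : ℝ) ^ (1 - ε) ≤ S.card ∧ ∀ X ∈ S, ∑ i, X i ^ 2 = n ∧
      (∀ i, (M : ℤ) ∣ X i - v i) ∧ ∀ h ∈ H, 0 < pf X + h ∧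
        ArithmeticFunction.cardFactors (pf X + h).natAbs ≤ K ∧
        ∀ q : ℕ, q.Prime → (q : ℤ) ∣ pf X + h → (n : ℝ) ^ δ < q := by
  classical
  obtain ⟨ε', hε'⟩ : ∃ ε' : ℝ, ε' = min ε (1 / 50) := ⟨_, rfl⟩
  have hε'0 : 0 < ε' := by rw [hε']; exact lt_min hε (by norm_num)
  obtain ⟨δ, hδ, n0, hmod⟩ := sieve_mod (4 * k) ε' hε'0 (by rw [hε']; exact min_le_right _ _)
  obtain ⟨K, hK⟩ := exists_nat_ge (2 / δ)
  obtain ⟨n1, hn1⟩ := large_rpow 2 δ hδ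
  refine ⟨K, δ, hδ, n0 + n1 + 9, ?_⟩
  intro n hno hn H hHk h0 hH hadm M hMo hMs hMn v hv hcop
  have hn1' : (1 : ℝ) ≤ n := by exact_mod_cast hno.pos
  have hn0 : (0 : ℝ) < n := by linarith
  have hn9 : (9 : ℝ) ≤ n := by exact_mod_cast (show 9 ≤ n by omega)
  have h2δ := hn1 n (by omega)
  have hgood : Good n M v := by
    refine ⟨hv, fun l hl hlM => ?_⟩
    by_contra h
    push Not at h
    apply hcop l hl hlM 0 h0
    rw [add_zero]
    unfold pf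
    exact dvd_add (dvd_add (dvd_add (dvd_pow (h 0) two_ne_zero) ((dvd_pow (h 1) two_ne_zero).mul_left _))
      ((dvd_pow (h 2) two_ne_zero).mul_left _)) ((dvd_pow (h 3) two_ne_zero).mul_left _)
  obtain ⟨S, hS1, hS2⟩ := hmod n hno (by omega) M hMo hMs hMn v hgood (fH H) (fH_congr H)
    (fun l hl hl2 _ => fH_bad H k hHk l hl hl2 n)
    (fun l hl hl2 _ => by
      obtain ⟨a, ha⟩ := hadm l hl
      have ha0 : ¬ (l : ℤ) ∣ a := by simpa using ha 0 h0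
      obtain ⟨c, hc, hc'⟩ := surj l hl hl2 n a ha0
      refine ⟨c, hc, fun hd => ?_⟩
      obtain ⟨h, hh, hd'⟩ := fH_dvd H l hl c hd
      apply ha h hh
      have := dvd_sub hd' hc'
      have e : pf c + h - (pf c - a) = a + h := by ring
      rwa [e] at this)
  refine ⟨S, le_trans ?_ hS1, ?_⟩
  · apply Real.rpow_le_rpow_of_exponent_le hn1'
    have : ε' ≤ ε := by rw [hε']; exact min_le_left _ _
    linarith
  intro X hX
  obtain ⟨h1, -, h2, h3⟩ := hS2 X hX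
  refine ⟨h1, h2, fun h hh => ?_⟩
  obtain ⟨heven, habs⟩ := hH h hh
  have hlow := pf_lower n X h1
  have hup := pf_upper n X h1
  have hodd := pf_odd n hno X h1
  have hnz : (9 : ℤ) ≤ n := by exact_mod_cast (show 9 ≤ n by omega)
  have habs1 := neg_abs_le h
  have habs2 := le_abs_self h
  have hpos : 0 < pf X + h := by linarith
  have hq : ∀ q : ℕ, q.Prime → (q : ℤ) ∣ pf X + h → (n : ℝ) ^ δ < q := by
    intro q hqp hqd
    by_contra hle
    push Not at hle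
    have hq2 : q ≠ 2 := by
      rintro rfl
      apply hodd
      obtain ⟨m, hm⟩ := heven
      have hqd' : (2 : ℤ) ∣ pf X + h := by exact_mod_cast hqd
      have := dvd_sub hqd' (show (2 : ℤ) ∣ h from ⟨m, by rw [hm]; ring⟩)
      simpa using this
    by_cases hqM : q ∣ M
    · apply hcop q hqp hqM h hh
      have h4 := pf_congr q X v (fun i => (Int.natCast_dvd_natCast.2 hqM).trans (h2 i))
      have := dvd_sub hqd h4
      have e : pf X + h - (pf X - pf v) = pf v + h := by ring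
      rwa [e] at this
    · exact h3 q hqp hq2 hqM hle (dvd_fH H q X h hh hqd)
  refine ⟨hpos, ?_, hq⟩
  have hm0 : (pf X + h).natAbs ≠ 0 := Int.natAbs_ne_zero.2 hpos.ne'
  have hm8 : (((pf X + h).natAbs : ℕ) : ℝ) ≤ (n : ℝ) ^ 2 := by
    have h5 : (((pf X + h).natAbs : ℕ) : ℤ) ≤ (n : ℤ) ^ 2 := by
      rw [Int.natAbs_of_nonneg hpos.le]
      nlinarith
    exact_mod_cast h5
  have h4 := omega_bound ((n : ℝ) ^ δ) (by positivity) (pf X + h).natAbs hm0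
    (fun q hq' hqm => (hq q hq' (Int.natCast_dvd.2 hqm)).le)
  by_contra hlt
  push Not at hlt
  have h6 : (n : ℝ) ^ (2 : ℝ) < ((n : ℝ) ^ δ) ^ (ArithmeticFunction.cardFactors (pf X + h).natAbs) := by
    rw [← Real.rpow_natCast, ← Real.rpow_mul hn0.le]
    apply Real.rpow_lt_rpow_of_exponent_lt (by linarith)
    rw [div_le_iff₀ hδ] at hK
    have h7 : (K : ℝ) + 1 ≤ (ArithmeticFunction.cardFactors (pf X + h).natAbs : ℕ) := by exact_mod_cast hlt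
    nlinarith
  have h8 : (n : ℝ) ^ (2 : ℝ) = (n : ℝ) ^ 2 := by
    rw [← Real.rpow_natCast]; norm_num
  rw [h8] at h6
  linarith

end Pool.Agent.X37.FS
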