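import Pool.Agent.W65.FS.Local
import Pool.Agent.Y105.RZ.Fin

/-!
# Local surjectivity: two diagonal quaternary forms over a finite prime field
-/

set_option autoImplicit false
open Finset

namespace Pool.Agent.X37.FS

section field
variable {F : Type} [Field F] [Fintype F] [DecidableEq F]

/-- sums over squares -/
lemma sum_sq (hF : ringChar F ≠ 2) (f : F → ℤ) : ∑ x : F, f (x ^ 2) = ∑ w : F, f w * (1 + quadraticChar F w) := by
  have h1 : ∀ w : F, (((univ.filter (fun x : F => x ^ 2 = w)).card : ℕ) : ℤ) = 1 + quadraticChar F w := by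
    intro w
    have := quadraticChar_card_sqrts hF w
    rw [add_comm, ← this]
    congr 2
    ext x
    simp
  have h2 : ∀ x : F, f (x ^ 2) = ∑ w : F, if x ^ 2 = w then f w else 0 := by
    intro x
    rw [Finset.sum_ite_eq]
    simp
  rw [Finset.sum_congr rfl fun x _ => h2 x, Finset.sum_comm]
  apply Finset.sum_congr rfl
  intro w _
  rw [← h1 w, Finset.sum_ite, Finset.sum_const, Finset.sum_const_zero, add_zero, nsmul_eq_mul, mul_comm]

lemma sum_lin (hF : ringChar F ≠ 2) (u v : F) (hv : v ≠ 0) : ∑ w : F, quadraticChar F (u + v * w) = 0 := by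
  rw [← quadraticChar_sum_zero hF]
  refine Fintype.sum_equiv ((Equiv.mulLeft₀ v hv).trans (Equiv.addLeft u)) _ _ fun w => ?_
  rfl

lemma sum_quad (hF : ringChar F ≠ 2) (u v : F) (hu : u ≠ 0) (hv : v ≠ 0) :
    ∑ x : F, quadraticChar F (u + v * x ^ 2) = -quadraticChar F v := by
  rw [sum_sq hF (fun w => quadraticChar F (u + v * w))]
  have h1 : ∀ w : F, quadraticChar F (u + v * w) * (1 + quadraticChar F w) =
      quadraticChar F (u + v * w) + quadraticChar F v * (quadraticChar F w * quadraticChar F (w - (-u / v))) := by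
    intro w
    have e : u + v * w = v * (w - (-u / v)) := by field_simp; ring
    rw [mul_add, mul_one]
    congr 1
    rw [e, map_mul]
    ring
  rw [Finset.sum_congr rfl fun w _ => h1 w, Finset.sum_add_distrib, sum_lin hF u v hv, ← Finset.mul_sum,
    Pool.Agent.Y105.RZ.jac hF (div_ne_zero (neg_ne_zero.2 hu) hv)]
  ring

/-- number of solutions of `a x² + b y² = t` -/
def N2 (a b t : F) : ℤ := ∑ x : F, ∑ y : F, if a * x ^ 2 + b * y ^ 2 = t then 1 else 0

lemma N2_eq (hF : ringChar F ≠ 2) (a b : F) (ha : a ≠ 0) (hb : b ≠ 0) :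
    ∃ e : ℤ, (e = 1 ∨ e = -1) ∧ ∀ t : F, N2 a b t = (Fintype.card F : ℤ) - e + if t = 0 then (Fintype.card F : ℤ) * e else 0 := by
  have hv : -a / b ≠ 0 := div_ne_zero (neg_ne_zero.2 ha) hb
  refine ⟨quadraticChar F (-a / b), quadraticChar_dichotomy hv, fun t => ?_⟩
  have h1 : ∀ x : F, (∑ y : F, if a * x ^ 2 + b * y ^ 2 = t then (1 : ℤ) else 0) =
      1 + quadraticChar F (t / b + (-a / b) * x ^ 2) := by
    intro x
    have := quadraticChar_card_sqrts hF (t / b + (-a / b) * x ^ 2)
    rw [add_comm 1, ← this, Finset.sum_ite, Finset.sum_const, Finset.sum_const_zero, add_zero, nsmul_eq_mul, mul_one]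
    congr 2
    ext y
    simp only [mem_filter, mem_univ, true_and, Set.mem_toFinset, Set.mem_setOf_eq]
    constructor
    · intro h
      field_simp
      linear_combination h
    · intro h
      rw [h]
      field_simp
      ring
  unfold N2
  rw [Finset.sum_congr rfl fun x _ => h1 x, Finset.sum_add_distrib]
  simp only [Finset.sum_const, Finset.card_univ, nsmul_eq_mul, mul_one]
  by_cases ht : t = 0
  · rw [if_pos ht, ht, zero_div]
    have h2 : ∀ x : F, quadraticChar F (0 + -a / b * x ^ 2) = quadraticChar F (-a / b) * (if x = 0 then 0 else 1) := by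
      intro x
      rw [zero_add, map_mul]
      congr 1
      by_cases hx : x = 0
      · rw [hx]; simp
      · rw [if_neg hx]
        exact quadraticChar_sq_one' hx
    rw [Finset.sum_congr rfl fun x _ => h2 x, ← Finset.mul_sum]
    have h3 : ∑ x : F, (if x = 0 then (0 : ℤ) else 1) = (Fintype.card F : ℤ) - 1 := by
      rw [← Finset.add_sum_erase _ _ (Finset.mem_univ (0 : F)), if_pos rfl,
        Finset.sum_congr rfl fun x hx => if_neg (Finset.mem_erase.1 hx).1]
      simp only [Finset.sum_const, Finset.card_erase_of_mem (Finset.mem_univ _), Finset.card_univ, nsmul_eq_mul, mul_one]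
      have := Fintype.card_pos (α := F)
      push_cast [Nat.cast_sub this]
      ring
    rw [h3]
    ring
  · rw [if_neg ht, sum_quad hF _ _ (div_ne_zero ht hb) hv]
    ring

lemma N2_nonneg (a b t : F) : 0 ≤ N2 a b t :=
  Finset.sum_nonneg fun x _ => Finset.sum_nonneg fun y _ => by split_ifs <;> norm_num

lemma N2_comm (a b t : F) : N2 a b t = N2 b a t := by
  unfold N2
  rw [Finset.sum_comm]
  refine Finset.sum_congr rfl fun x _ => Finset.sum_congr rfl fun y _ => ?_
  rw [add_comm]

lemma N2_le (a b t : F) (h : a ≠ 0) : N2 a b t ≤ 2 * Fintype.card F := by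
  unfold N2
  rw [Finset.sum_comm]
  have h1 : ∀ y : F, (∑ x : F, if a * x ^ 2 + b * y ^ 2 = t then (1 : ℤ) else 0) ≤ 2 := by
    intro y
    rw [Finset.sum_ite, Finset.sum_const, Finset.sum_const_zero, add_zero, nsmul_eq_mul, mul_one]
    have h2 : (univ.filter (fun x : F => a * x ^ 2 + b * y ^ 2 = t)).card ≤ 2 := by
      by_contra hlt
      push Not at hlt
      obtain ⟨p, q, r, hp, hq, hr, hpq, hpr, hqr⟩ := Finset.two_lt_card_iff.1 hlt
      rw [mem_filter] at hp hq hr
      have e1 : a * ((p - q) * (p + q)) = 0 := by linear_combination hp.2 - hq.2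
      have e2 : a * ((p - r) * (p + r)) = 0 := by linear_combination hp.2 - hr.2
      have e3 : p + q = 0 := by
        rcases mul_eq_zero.1 e1 with h3 | h3
        · exact absurd h3 h
        · rcases mul_eq_zero.1 h3 with h4 | h4
          · exact absurd (sub_eq_zero.1 h4) hpq
          · exact h4
      have e4 : p + r = 0 := by
        rcases mul_eq_zero.1 e2 with h3 | h3
        · exact absurd h3 h
        · rcases mul_eq_zero.1 h3 with h4 | h4
          · exact absurd (sub_eq_zero.1 h4) hpr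
          · exact h4
      exact hqr (by linear_combination e3 - e4)
    exact_mod_cast h2
  calc ∑ y : F, ∑ x : F, (if a * x ^ 2 + b * y ^ 2 = t then (1 : ℤ) else 0) ≤ ∑ _y : F, (2 : ℤ) :=
        Finset.sum_le_sum fun y _ => h1 y
    _ = 2 * Fintype.card F := by
      rw [Finset.sum_const, Finset.card_univ, nsmul_eq_mul, mul_comm]

/-- number of solutions of `a x² + b y² + c z² + d w² = t` -/
def N4 (a b c d t : F) : ℤ := ∑ z : F, ∑ w : F, N2 a b (t - (c * z ^ 2 + d * w ^ 2))

lemma N4_expand (a b c d t : F) : N4 a b c d t =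
    ∑ z : F, ∑ w : F, ∑ x : F, ∑ y : F, if a * x ^ 2 + b * y ^ 2 + (c * z ^ 2 + d * w ^ 2) = t then (1 : ℤ) else 0 := by
  unfold N4 N2
  refine Finset.sum_congr rfl fun z _ => Finset.sum_congr rfl fun w _ => Finset.sum_congr rfl fun x _ =>
    Finset.sum_congr rfl fun y _ => ?_
  by_cases h : a * x ^ 2 + b * y ^ 2 + (c * z ^ 2 + d * w ^ 2) = t
  · rw [if_pos h, if_pos (by rw [← h]; ring)]
  · rw [if_neg h, if_neg (fun h' => h (by rw [h']; ring))]

lemma N4_comm (a b c d t : F) : N4 a b c d t = N4 c d a b t := by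
  rw [N4_expand, N4_expand]
  have h1 : ∀ (g : F → F → F → F → ℤ), ∑ z : F, ∑ w : F, ∑ x : F, ∑ y : F, g z w x y =
      ∑ p : F × F, ∑ q : F × F, g p.1 p.2 q.1 q.2 := by
    intro g
    rw [Fintype.sum_prod_type]
    refine Finset.sum_congr rfl fun z _ => Finset.sum_congr rfl fun w _ => ?_
    rw [Fintype.sum_prod_type]
  rw [h1 (fun z w x y => if a * x ^ 2 + b * y ^ 2 + (c * z ^ 2 + d * w ^ 2) = t then (1 : ℤ) else 0),
    h1 (fun z w x y => if c * x ^ 2 + d * y ^ 2 + (a * z ^ 2 + b * w ^ 2) = t then (1 : ℤ) else 0), Finset.sum_comm]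
  refine Finset.sum_congr rfl fun p _ => Finset.sum_congr rfl fun q _ => ?_
  rw [add_comm (a * p.1 ^ 2 + b * p.2 ^ 2)]

lemma N4_formula (hF : ringChar F ≠ 2) (a b c d t : F) (ha : a ≠ 0) (hb : b ≠ 0) :
    ∃ e : ℤ, (e = 1 ∨ e = -1) ∧ N4 a b c d t =
      (Fintype.card F : ℤ) ^ 2 * ((Fintype.card F : ℤ) - e) + (Fintype.card F : ℤ) * e * N2 c d t := by
  obtain ⟨e, he, h⟩ := N2_eq hF a b ha hb
  refine ⟨e, he, ?_⟩
  unfold N4
  have h1 : ∀ z w : F, N2 a b (t - (c * z ^ 2 + d * w ^ 2)) =
      ((Fintype.card F : ℤ) - e) + (Fintype.card F : ℤ) * e * (if c * z ^ 2 + d * w ^ 2 = t then 1 else 0) := by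
    intro z w
    rw [h]
    congr 1
    by_cases h2 : c * z ^ 2 + d * w ^ 2 = t
    · rw [if_pos h2, if_pos (by rw [h2, sub_self]), mul_one]
    · rw [if_neg h2, if_neg (fun h' => h2 (by linear_combination -h')), mul_zero]
  simp_rw [h1, Finset.sum_add_distrib, ← Finset.mul_sum]
  simp only [Finset.sum_const, Finset.card_univ, nsmul_eq_mul]
  unfold N2
  ring

/-- lower bound, at most one coefficient zero -/
lemma N4_low (hF : ringChar F ≠ 2) (a b c d t : F) (ha : a ≠ 0) (hb : b ≠ 0) (hcd : c ≠ 0 ∨ d ≠ 0) :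
    (Fintype.card F : ℤ) ^ 3 - (Fintype.card F : ℤ) ^ 2 ≤ N4 a b c d t := by
  obtain ⟨e, he, h⟩ := N4_formula hF a b c d t ha hb
  have hq : 0 ≤ (Fintype.card F : ℤ) := Nat.cast_nonneg _
  have h0 := N2_nonneg c d t
  have h2 : N2 c d t ≤ 2 * Fintype.card F := by
    rcases hcd with hc | hd
    · exact N2_le c d t hc
    · rw [N2_comm]; exact N2_le d c t hd
  rw [h]
  rcases he with he | he
  · rw [he]
    nlinarith [mul_nonneg hq h0]
  · rw [he]
    nlinarith [mul_le_mul_of_nonneg_left h2 hq]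

/-- lower bound, non degenerate case -/
lemma N4_low' (hF : ringChar F ≠ 2) (a b c d t : F) (ha : a ≠ 0) (hb : b ≠ 0) (hc : c ≠ 0) (hd : d ≠ 0) (ht : t ≠ 0) :
    (Fintype.card F : ℤ) ^ 3 - (Fintype.card F : ℤ) ≤ N4 a b c d t := by
  obtain ⟨e, he, h⟩ := N4_formula hF a b c d t ha hb
  obtain ⟨e', he', h'⟩ := N2_eq hF c d hc hd
  have hq : 0 ≤ (Fintype.card F : ℤ) := Nat.cast_nonneg _
  rw [h, h', if_neg ht]
  rcases he with he | he <;> rcases he' with he' | he' <;> rw [he, he'] <;> nlinarith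

end field
end Pool.Agent.X37.FS
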