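import Pool.Agent.X37.FS.Pat

/-!
# Four squares with almost prime variables and almost prime pairs `p - 2`, `p`
-/

set_option autoImplicit false
open Finset

namespace Pool.Agent.X37.FS
open Pool.Agent.W65.FS

/-- the classes with a vanishing coordinate -/
lemma zero_bad (l : ℕ) (hl : l.Prime) (n : ℕ) (i j k m : Fin 4) (hall : ∀ a : Fin 4, a = i ∨ a = j ∨ a = k ∨ a = m)
    (hsum : ∀ c : Fin 4 → ℤ, ∑ a, c a ^ 2 = c i ^ 2 + c j ^ 2 + c k ^ 2 + c m ^ 2) :
    ((Gl n l).filter (fun c => (l : ℤ) ∣ c i)).card ≤ 2 * l ^ 2 := by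
  classical
  have hl0 : (0 : ℤ) < l := by exact_mod_cast hl.pos
  have hcard : ((Finset.Ico (0 : ℤ) l) ×ˢ (Finset.Ico (0 : ℤ) l)).card = l ^ 2 := by
    rw [Finset.card_product]; simp; ring
  rw [← hcard]
  apply Finset.card_le_mul_card_image_of_maps_to (f := fun c : Fin 4 → ℤ => (c j, c k))
  · intro c hc
    rw [Finset.mem_filter] at hc
    have h2 := ((mem_Gl n l c).1 hc.1).1
    rw [Finset.mem_product, Finset.mem_Ico, Finset.mem_Ico]
    exact ⟨h2 j, h2 k⟩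
  · intro r _
    by_cases hne : (((Gl n l).filter (fun c => (l : ℤ) ∣ c i)).filter (fun c => (c j, c k) = r)).Nonempty
    · obtain ⟨d, hd⟩ := hne
      rw [Finset.mem_filter, Finset.mem_filter] at hd
      obtain ⟨⟨hd1, hd2⟩, hdr⟩ := hd
      have hd3 := (mem_Gl n l d).1 hd1
      have hd0 : d i = 0 := by
        have h1 := hd3.1 i
        obtain ⟨t, ht⟩ := hd2
        rcases lt_trichotomy t 0 with h | h | h
        · nlinarith
        · rw [ht, h, mul_zero]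
        · nlinarith
      have hsub : ((Gl n l).filter (fun c => (l : ℤ) ∣ c i)).filter (fun c => (c j, c k) = r) ⊆
          {d, Function.update d m ((-d m) % l)} := by
        intro c hc
        rw [Finset.mem_filter, Finset.mem_filter] at hc
        obtain ⟨⟨hc1, hc2⟩, hcr⟩ := hc
        have hc3 := (mem_Gl n l c).1 hc1
        have hc0 : c i = 0 := by
          have h1 := hc3.1 i
          obtain ⟨t, ht⟩ := hc2
          rcases lt_trichotomy t 0 with h | h | h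
          · nlinarith
          · rw [ht, h, mul_zero]
          · nlinarith
        have ejk : (c j, c k) = (d j, d k) := by rw [hcr, hdr]
        simp only [Prod.mk.injEq] at ejk
        obtain ⟨ej, ek⟩ := ejk
        have g1 : (l : ℤ) ∣ c m ^ 2 - d m ^ 2 := by
          have := dvd_sub hc3.2.1 hd3.2.1
          rw [hsum, hsum, ej, ek, hc0, hd0] at this
          have h5 : (0 : ℤ) ^ 2 + d j ^ 2 + d k ^ 2 + c m ^ 2 - n - (0 ^ 2 + d j ^ 2 + d k ^ 2 + d m ^ 2 - n) =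
            c m ^ 2 - d m ^ 2 := by ring
          rwa [h5] at this
        have k1 := sq_cases l hl (c m) (d m) g1 (hc3.1 m) (hd3.1 m)
        simp only [Finset.mem_insert, Finset.mem_singleton]
        rcases k1 with k1 | k1
        · left
          funext a
          rcases hall a with h | h | h | h
          · rw [h, hc0, hd0]
          · rw [h, ej]
          · rw [h, ek]
          · rw [h, k1]
        · right
          funext a
          by_cases ham : a = m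
          · rw [ham, Function.update_self, k1]
          · rw [Function.update_of_ne ham]
            rcases hall a with h | h | h | h
            · rw [h, hc0, hd0]
            · rw [h, ej]
            · rw [h, ek]
            · exact absurd h ham
      exact (Finset.card_le_card hsub).trans Finset.card_le_two
    · rw [Finset.not_nonempty_iff_eq_empty.1 hne]
      simp

/-- the product of the variables and of `p (p - 2)` -/
def gv (X : Fin 4 → ℤ) : ℤ := X 0 * X 1 * X 2 * X 3 * ff X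

lemma gv_congr (l : ℕ) (X Y : Fin 4 → ℤ) (h : ∀ i, (l : ℤ) ∣ X i - Y i) : (l : ℤ) ∣ gv X - gv Y := by
  have h1 := ff_congr l X Y h
  unfold gv
  have e : X 0 * X 1 * X 2 * X 3 * ff X - Y 0 * Y 1 * Y 2 * Y 3 * ff Y =
      (X 0 - Y 0) * (X 1 * X 2 * X 3 * ff X) + (X 1 - Y 1) * (Y 0 * X 2 * X 3 * ff X) +
      (X 2 - Y 2) * (Y 0 * Y 1 * X 3 * ff X) + (X 3 - Y 3) * (Y 0 * Y 1 * Y 2 * ff X) +
      (ff X - ff Y) * (Y 0 * Y 1 * Y 2 * Y 3) := by ring
  rw [e]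
  exact dvd_add (dvd_add (dvd_add (dvd_add ((h 0).mul_right _) ((h 1).mul_right _)) ((h 2).mul_right _))
    ((h 3).mul_right _)) (h1.mul_right _)

lemma gv_bad (l : ℕ) (hl : l.Prime) (hl2 : l ≠ 2) (n : ℕ) : (Bl gv n l).card ≤ 16 * l ^ 2 := by
  classical
  have hlp : Prime (l : ℤ) := Nat.prime_iff_prime_int.1 hl
  have hsub : Bl gv n l ⊆ (Gl n l).filter (fun c => (l : ℤ) ∣ c 0) ∪ (Gl n l).filter (fun c => (l : ℤ) ∣ c 1) ∪
      (Gl n l).filter (fun c => (l : ℤ) ∣ c 2) ∪ (Gl n l).filter (fun c => (l : ℤ) ∣ c 3) ∪ Bl ff n l := by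
    intro c hc
    rw [mem_Bl] at hc
    simp only [Finset.mem_union, Finset.mem_filter, mem_Bl]
    unfold gv at hc
    rcases hlp.dvd_or_dvd hc.2 with h | h
    · rcases hlp.dvd_or_dvd h with h | h
      · rcases hlp.dvd_or_dvd h with h | h
        · rcases hlp.dvd_or_dvd h with h | h
          · exact Or.inl (Or.inl (Or.inl (Or.inl ⟨hc.1, h⟩)))
          · exact Or.inl (Or.inl (Or.inl (Or.inr ⟨hc.1, h⟩)))
        · exact Or.inl (Or.inl (Or.inr ⟨hc.1, h⟩))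
      · exact Or.inl (Or.inr ⟨hc.1, h⟩)
    · exact Or.inr ⟨hc.1, h⟩
  have b0 := zero_bad l hl n 0 1 2 3 (by decide) (fun c => Fin.sum_univ_four _)
  have b1 := zero_bad l hl n 1 0 2 3 (by decide) (fun c => by rw [Fin.sum_univ_four]; ring)
  have b2 := zero_bad l hl n 2 0 1 3 (by decide) (fun c => by rw [Fin.sum_univ_four]; ring)
  have b3 := zero_bad l hl n 3 0 1 2 (by decide) (fun c => by rw [Fin.sum_univ_four]; ring)
  have b4 := Bl_card l hl hl2 n
  refine (Finset.card_le_card hsub).trans ?_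
  refine (Finset.card_union_le _ _).trans ?_
  have u1 := Finset.card_union_le ((Gl n l).filter (fun c => (l : ℤ) ∣ c 0) ∪ (Gl n l).filter (fun c => (l : ℤ) ∣ c 1) ∪
      (Gl n l).filter (fun c => (l : ℤ) ∣ c 2)) ((Gl n l).filter (fun c => (l : ℤ) ∣ c 3))
  have u2 := Finset.card_union_le ((Gl n l).filter (fun c => (l : ℤ) ∣ c 0) ∪ (Gl n l).filter (fun c => (l : ℤ) ∣ c 1))
      ((Gl n l).filter (fun c => (l : ℤ) ∣ c 2))
  have u3 := Finset.card_union_le ((Gl n l).filter (fun c => (l : ℤ) ∣ c 0)) ((Gl n l).filter (fun c => (l : ℤ) ∣ c 1))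
  omega

lemma witness' (l n : ℕ) (hl : l.Prime) (x y z w : ℕ) (hx : 0 < x ∧ x < l) (hy : 0 < y ∧ y < l) (hz : 0 < z ∧ z < l)
    (hw : 0 < w ∧ w < l)
    (h1 : (x ^ 2 + y ^ 2 + z ^ 2 + w ^ 2) % l = n % l)
    (h3 : (x ^ 2 + 3 * y ^ 2 + 5 * z ^ 2 + 7 * w ^ 2) % l ≠ 0) (h4 : (x ^ 2 + 3 * y ^ 2 + 5 * z ^ 2 + 7 * w ^ 2) % l ≠ 2 % l) :
    ∃ c ∈ Gl n l, ¬ (l : ℤ) ∣ gv c := by
  have hlp : Prime (l : ℤ) := Nat.prime_iff_prime_int.1 hl
  have hnd : ∀ t : ℕ, 0 < t → t < l → ¬ (l : ℤ) ∣ (t : ℤ) := by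
    intro t ht0 htl h
    have : l ∣ t := by exact_mod_cast h
    exact absurd (Nat.le_of_dvd ht0 this) (by omega)
  refine ⟨![(x : ℤ), y, z, w], ?_, ?_⟩
  · rw [mem_Gl]
    refine ⟨?_, ?_, ?_⟩
    · intro i
      fin_cases i <;> simp <;> omega
    · rw [Fin.sum_univ_four]
      simp only [Matrix.cons_val_zero, Matrix.cons_val_one, Matrix.cons_val]
      have : (n : ℕ) ≡ x ^ 2 + y ^ 2 + z ^ 2 + w ^ 2 [MOD l] := h1.symm
      have := (Nat.modEq_iff_dvd.1 this)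
      push_cast at this
      exact this
    · exact ⟨0, by simpa using hnd x hx.1 hx.2⟩
  · intro h
    unfold gv ff pf at h
    simp only [Matrix.cons_val_zero, Matrix.cons_val_one, Matrix.cons_val] at h
    rcases hlp.dvd_or_dvd h with h5 | h5
    · rcases hlp.dvd_or_dvd h5 with h5 | h5
      · rcases hlp.dvd_or_dvd h5 with h5 | h5
        · rcases hlp.dvd_or_dvd h5 with h5 | h5
          · exact hnd x hx.1 hx.2 h5
          · exact hnd y hy.1 hy.2 h5
        · exact hnd z hz.1 hz.2 h5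
      · exact hnd w hw.1 hw.2 h5
    · rcases hlp.dvd_or_dvd h5 with h5 | h5
      · apply h3
        apply Nat.mod_eq_zero_of_dvd
        exact_mod_cast h5
      · apply h4
        have h6 : ((l : ℕ) : ℤ) ∣ ((x ^ 2 + 3 * y ^ 2 + 5 * z ^ 2 + 7 * w ^ 2 : ℕ) : ℤ) - ((2 : ℕ) : ℤ) := by
          push_cast
          exact h5
        exact (Nat.modEq_iff_dvd.2 h6).symm

lemma lv5 : ∀ n : Fin 5, ∃ x y z w : Fin 2, ((x.val + 1) ^ 2 + (y.val + 1) ^ 2 + (z.val + 1) ^ 2 + (w.val + 1) ^ 2) % 5 = n.val ∧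
    ((x.val + 1) ^ 2 + 3 * (y.val + 1) ^ 2 + 5 * (z.val + 1) ^ 2 + 7 * (w.val + 1) ^ 2) % 5 ≠ 0 ∧
    ((x.val + 1) ^ 2 + 3 * (y.val + 1) ^ 2 + 5 * (z.val + 1) ^ 2 + 7 * (w.val + 1) ^ 2) % 5 ≠ 2 % 5 := by decide

lemma lv7 : ∀ n : Fin 7, ∃ x y z w : Fin 3, ((x.val + 1) ^ 2 + (y.val + 1) ^ 2 + (z.val + 1) ^ 2 + (w.val + 1) ^ 2) % 7 = n.val ∧
    ((x.val + 1) ^ 2 + 3 * (y.val + 1) ^ 2 + 5 * (z.val + 1) ^ 2 + 7 * (w.val + 1) ^ 2) % 7 ≠ 0 ∧
    ((x.val + 1) ^ 2 + 3 * (y.val + 1) ^ 2 + 5 * (z.val + 1) ^ 2 + 7 * (w.val + 1) ^ 2) % 7 ≠ 2 % 7 := by decide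

set_option maxRecDepth 100000 in
lemma lv11 : ∀ n : Fin 11, ∃ x y z w : Fin 5, ((x.val + 1) ^ 2 + (y.val + 1) ^ 2 + (z.val + 1) ^ 2 + (w.val + 1) ^ 2) % 11 = n.val ∧
    ((x.val + 1) ^ 2 + 3 * (y.val + 1) ^ 2 + 5 * (z.val + 1) ^ 2 + 7 * (w.val + 1) ^ 2) % 11 ≠ 0 ∧
    ((x.val + 1) ^ 2 + 3 * (y.val + 1) ^ 2 + 5 * (z.val + 1) ^ 2 + 7 * (w.val + 1) ^ 2) % 11 ≠ 2 % 11 := by decide

set_option maxRecDepth 100000 in
lemma lv13 : ∀ n : Fin 13, ∃ x y z w : Fin 6, ((x.val + 1) ^ 2 + (y.val + 1) ^ 2 + (z.val + 1) ^ 2 + (w.val + 1) ^ 2) % 13 = n.val ∧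
    ((x.val + 1) ^ 2 + 3 * (y.val + 1) ^ 2 + 5 * (z.val + 1) ^ 2 + 7 * (w.val + 1) ^ 2) % 13 ≠ 0 ∧
    ((x.val + 1) ^ 2 + 3 * (y.val + 1) ^ 2 + 5 * (z.val + 1) ^ 2 + 7 * (w.val + 1) ^ 2) % 13 ≠ 2 % 13 := by decide

lemma local_gv (l : ℕ) (hl : l.Prime) (hl2 : l ≠ 2) (n : ℕ) (h3 : l = 3 → n % 3 = 1) : ∃ c ∈ Gl n l, ¬ (l : ℤ) ∣ gv c := by
  classical
  by_cases hbig : 17 ≤ l
  · by_contra h
    push Not at h
    have h1 : Gl n l ⊆ Bl gv n l := fun c hc => (mem_Bl _ _ _ _).2 ⟨hc, h c hc⟩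
    have h2 := (Finset.card_le_card h1).trans (gv_bad l hl hl2 n)
    have h3 := count_lower l hl hl2 n
    have h4 : ((Gl n l).card : ℝ) ≤ 16 * (l : ℝ) ^ 2 := by exact_mod_cast h2
    have h5 : (17 : ℝ) ≤ l := by exact_mod_cast hbig
    nlinarith [mul_pos (show (0:ℝ) < l by linarith) (show (0:ℝ) < l by linarith)]
  · have hcases : l = 3 ∨ l = 5 ∨ l = 7 ∨ l = 11 ∨ l = 13 := by
      have := hl.two_le
      have h11 : l < 17 := by omega
      interval_cases l <;> first | omega | (exfalso; revert hl; decide)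
    rcases hcases with rfl | rfl | rfl | rfl | rfl
    · have h := h3 rfl
      exact witness' 3 n hl 1 1 1 1 (by norm_num) (by norm_num) (by norm_num) (by norm_num) (by omega) (by norm_num)
        (by norm_num)
    · obtain ⟨x, y, z, w, h1, h2, h3⟩ := lv5 ⟨n % 5, Nat.mod_lt _ (by norm_num)⟩
      have := x.2; have := y.2; have := z.2; have := w.2
      exact witness' 5 n hl (x + 1) (y + 1) (z + 1) (w + 1) (by omega) (by omega) (by omega) (by omega) h1 h2 h3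
    · obtain ⟨x, y, z, w, h1, h2, h3⟩ := lv7 ⟨n % 7, Nat.mod_lt _ (by norm_num)⟩
      have := x.2; have := y.2; have := z.2; have := w.2
      exact witness' 7 n hl (x + 1) (y + 1) (z + 1) (w + 1) (by omega) (by omega) (by omega) (by omega) h1 h2 h3
    · obtain ⟨x, y, z, w, h1, h2, h3⟩ := lv11 ⟨n % 11, Nat.mod_lt _ (by norm_num)⟩
      have := x.2; have := y.2; have := z.2; have := w.2
      exact witness' 11 n hl (x + 1) (y + 1) (z + 1) (w + 1) (by omega) (by omega) (by omega) (by omega) h1 h2 h3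
    · obtain ⟨x, y, z, w, h1, h2, h3⟩ := lv13 ⟨n % 13, Nat.mod_lt _ (by norm_num)⟩
      have := x.2; have := y.2; have := z.2; have := w.2
      exact witness' 13 n hl (x + 1) (y + 1) (z + 1) (w + 1) (by omega) (by omega) (by omega) (by omega) h1 h2 h3

/-- number of prime factors of a rough number -/
lemma omega_le (n : ℕ) (hn : 2 ≤ n) (δ : ℝ) (hδ : 0 < δ) (K : ℕ) (hK : 2 / δ ≤ K) (m : ℕ) (hm0 : m ≠ 0) (hm : m ≤ n ^ 2)
    (h : ∀ q : ℕ, q.Prime → q ∣ m → (n : ℝ) ^ δ < q) : ArithmeticFunction.cardFactors m ≤ K := by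
  have hn0 : (0 : ℝ) < n := by exact_mod_cast (by omega : 0 < n)
  have hn2 : (1 : ℝ) < n := by exact_mod_cast (by omega : 1 < n)
  have h4 := omega_bound ((n : ℝ) ^ δ) (by positivity) m hm0 (fun q hq' hqm => (h q hq' hqm).le)
  by_contra hlt
  push Not at hlt
  have h6 : (n : ℝ) ^ (2 : ℝ) < ((n : ℝ) ^ δ) ^ (ArithmeticFunction.cardFactors m) := by
    rw [← Real.rpow_natCast, ← Real.rpow_mul hn0.le]
    apply Real.rpow_lt_rpow_of_exponent_lt hn2
    rw [div_le_iff₀ hδ] at hK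
    have h7 : (K : ℝ) + 1 ≤ (ArithmeticFunction.cardFactors m : ℕ) := by exact_mod_cast hlt
    nlinarith
  have h8 : (n : ℝ) ^ (2 : ℝ) = (n : ℝ) ^ 2 := by
    rw [← Real.rpow_natCast]; norm_num
  have h9 : (m : ℝ) ≤ (n : ℝ) ^ 2 := by exact_mod_cast hm
  rw [h8] at h6
  linarith

/-- **almost prime variables and almost prime pairs** -/
theorem almost_vars (ε : ℝ) (hε : 0 < ε) : ∃ K : ℕ, ∃ δ : ℝ, 0 < δ ∧ ∃ n0 : ℕ, ∀ n : ℕ, Odd n → n % 3 = 1 → n0 ≤ n →
    ∀ M : ℕ, Odd M → Squarefree M → (M : ℝ) ≤ (n : ℝ) ^ δ → ∀ v : Fin 4 → ℤ, (M : ℤ) ∣ (∑ i, v i ^ 2) - n →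
    (∀ l : ℕ, l.Prime → l ∣ M → ¬ (l : ℤ) ∣ gv v) →
    ∃ S : Finset (Fin 4 → ℤ), (n : ℝ) ^ (1 - ε) ≤ S.card ∧ ∀ X ∈ S, ∑ i, X i ^ 2 = n ∧
      (∀ i, (M : ℤ) ∣ X i - v i) ∧ 0 < pf X - 2 ∧ X 0 * X 1 * X 2 * X 3 ≠ 0 ∧
        ArithmeticFunction.cardFactors (pf X).natAbs ≤ K ∧ ArithmeticFunction.cardFactors (pf X - 2).natAbs ≤ K ∧
        (∀ q : ℕ, q.Prime → (q : ℤ) ∣ pf X * (pf X - 2) → (n : ℝ) ^ δ < q) ∧
        ∃ a m : ℕ, (X 0 * X 1 * X 2 * X 3).natAbs = 2 ^ a * m ∧ ArithmeticFunction.cardFactors m ≤ K ∧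
          ∀ q : ℕ, q.Prime → q ∣ m → (n : ℝ) ^ δ < q := by
  classical
  obtain ⟨ε', hε'⟩ : ∃ ε' : ℝ, ε' = min ε (1 / 50) := ⟨_, rfl⟩
  have hε'0 : 0 < ε' := by rw [hε']; exact lt_min hε (by norm_num)
  obtain ⟨δ, hδ, n0, hmod⟩ := sieve_mod 16 ε' hε'0 (by rw [hε']; exact min_le_right _ _)
  obtain ⟨K, hK⟩ := exists_nat_ge (2 / δ)
  obtain ⟨n1, hn1⟩ := large_rpow 3 δ hδ
  refine ⟨K, δ, hδ, n0 + n1 + 9, ?_⟩
  intro n hno hn3 hn M hMo hMs hMn v hv hcop
  have hn1' : (1 : ℝ) ≤ n := by exact_mod_cast hno.pos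
  have hn0 : (0 : ℝ) < n := by linarith
  have h3δ := hn1 n (by omega)
  have hgood : Good n M v := by
    refine ⟨hv, fun l hl hlM => ?_⟩
    by_contra h
    push Not at h
    apply hcop l hl hlM
    unfold gv
    exact ((((h 0).mul_right _).mul_right _).mul_right _).mul_right _
  obtain ⟨S, hS1, hS2⟩ := hmod n hno (by omega) M hMo hMs hMn v hgood gv gv_congr
    (fun l hl hl2 _ => gv_bad l hl hl2 n) (fun l hl hl2 _ => local_gv l hl hl2 n (fun _ => hn3))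
  refine ⟨S, le_trans ?_ hS1, ?_⟩
  · apply Real.rpow_le_rpow_of_exponent_le hn1'
    have : ε' ≤ ε := by rw [hε']; exact min_le_left _ _
    linarith
  intro X hX
  obtain ⟨h1, -, h2, h3⟩ := hS2 X hX
  have hlow := pf_lower n X h1
  have hup := pf_upper n X h1
  have hodd := pf_odd n hno X h1
  have hnz : (9 : ℤ) ≤ n := by exact_mod_cast (show 9 ≤ n by omega)
  -- no small odd prime divides `gv X`
  have hq : ∀ q : ℕ, q.Prime → q ≠ 2 → (q : ℤ) ∣ gv X → (n : ℝ) ^ δ < q := by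
    intro q hqp hq2 hqd
    by_contra hle
    push Not at hle
    by_cases hqM : q ∣ M
    · apply hcop q hqp hqM
      have h4 := gv_congr q X v (fun i => (Int.natCast_dvd_natCast.2 hqM).trans (h2 i))
      have := dvd_sub hqd h4
      rwa [sub_sub_cancel] at this
    · exact h3 q hqp hq2 hqM hle hqd
  have hgv0 : gv X ≠ 0 := by
    intro h0
    have h4 := hq 3 (by norm_num) (by norm_num) (by rw [h0]; exact dvd_zero _)
    push_cast at h4
    linarith
  have hprod0 : X 0 * X 1 * X 2 * X 3 ≠ 0 := fun h0 => hgv0 (by unfold gv; rw [h0, zero_mul])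
  have hpos : 0 < pf X - 2 := by linarith
  have hpos' : 0 < pf X := by linarith
  have hff : ∀ q : ℕ, q.Prime → (q : ℤ) ∣ pf X * (pf X - 2) → (n : ℝ) ^ δ < q := by
    intro q hqp hqd
    have hq2 : q ≠ 2 := by
      rintro rfl
      rcases (Int.prime_two).dvd_or_dvd (show (2 : ℤ) ∣ pf X * (pf X - 2) by exact_mod_cast hqd) with h4 | h4
      · exact hodd h4
      · apply hodd
        have := dvd_add h4 (dvd_refl (2 : ℤ))
        simpa using this
    apply hq q hqp hq2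
    unfold gv ff
    exact hqd.mul_left _
  refine ⟨h1, h2, hpos, hprod0, ?_, ?_, hff, ?_⟩
  · apply omega_le n (by omega) δ hδ K hK _ (Int.natAbs_ne_zero.2 hpos'.ne')
    · have h5 : (((pf X).natAbs : ℕ) : ℤ) ≤ (n : ℤ) ^ 2 := by
        rw [Int.natAbs_of_nonneg hpos'.le]
        nlinarith
      exact_mod_cast h5
    · exact fun q hqp hqd => hff q hqp ((Int.natCast_dvd.2 hqd).mul_right _)
  · apply omega_le n (by omega) δ hδ K hK _ (Int.natAbs_ne_zero.2 hpos.ne')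
    · have h5 : (((pf X - 2).natAbs : ℕ) : ℤ) ≤ (n : ℤ) ^ 2 := by
        rw [Int.natAbs_of_nonneg hpos.le]
        nlinarith
      exact_mod_cast h5
    · exact fun q hqp hqd => hff q hqp ((Int.natCast_dvd.2 hqd).mul_left _)
  · obtain ⟨a, m, hmo, ham⟩ := Nat.exists_eq_two_pow_mul_odd (Int.natAbs_ne_zero.2 hprod0)
    refine ⟨a, m, ham, ?_, ?_⟩
    · apply omega_le n (by omega) δ hδ K hK m hmo.pos.ne'
      · have h6 : m ≤ (X 0 * X 1 * X 2 * X 3).natAbs := by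
          rw [ham]
          exact Nat.le_mul_of_pos_left _ (by positivity)
        refine h6.trans ?_
        have h7 : (X 0 * X 1 * X 2 * X 3) ^ 2 ≤ (n : ℤ) ^ 4 := by
          rw [Fin.sum_univ_four] at h1
          have a0 : X 0 ^ 2 ≤ n := by nlinarith [sq_nonneg (X 1), sq_nonneg (X 2), sq_nonneg (X 3)]
          have a1 : X 1 ^ 2 ≤ n := by nlinarith [sq_nonneg (X 0), sq_nonneg (X 2), sq_nonneg (X 3)]
          have a2 : X 2 ^ 2 ≤ n := by nlinarith [sq_nonneg (X 0), sq_nonneg (X 1), sq_nonneg (X 3)]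
          have a3 : X 3 ^ 2 ≤ n := by nlinarith [sq_nonneg (X 0), sq_nonneg (X 1), sq_nonneg (X 2)]
          calc (X 0 * X 1 * X 2 * X 3) ^ 2 = X 0 ^ 2 * X 1 ^ 2 * X 2 ^ 2 * X 3 ^ 2 := by ring
            _ ≤ (n : ℤ) * n * n * n := by gcongr
            _ = (n : ℤ) ^ 4 := by ring
        have h8 : ((X 0 * X 1 * X 2 * X 3).natAbs : ℤ) ≤ (n : ℤ) ^ 2 := by
          rw [Int.natCast_natAbs]
          apply abs_le_of_sq_le_sq _ (by positivity)
          calc (X 0 * X 1 * X 2 * X 3) ^ 2 ≤ (n : ℤ) ^ 4 := h7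
            _ = ((n : ℤ) ^ 2) ^ 2 := by ring
        exact_mod_cast h8
      · intro q hqp hqd
        have hq2 : q ≠ 2 := by
          rintro rfl
          exact (Nat.not_even_iff_odd.2 hmo) (even_iff_two_dvd.2 hqd)
        apply hq q hqp hq2
        unfold gv
        apply Dvd.dvd.mul_right
        apply Int.natCast_dvd.2
        rw [ham]
        exact hqd.mul_left _
    · intro q hqp hqd
      have hq2 : q ≠ 2 := by
        rintro rfl
        exact (Nat.not_even_iff_odd.2 hmo) (even_iff_two_dvd.2 hqd)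
      apply hq q hqp hq2
      unfold gv
      apply Dvd.dvd.mul_right
      apply Int.natCast_dvd.2
      rw [ham]
      exact hqd.mul_left _

end Pool.Agent.X37.FS
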